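import Pool.Agent.J4H8.JP.Disc

set_option autoImplicit false

/-! # helper8: `S_low` -/

namespace Pool.Agent.J4H8.JP

open Complex Filter Topology Metric Polynomial
open scoped ComplexConjugate
open Pool.Agent.J4H1.JP

theorem Fn_succ (n : ℕ) : deriv (Fn n) = Fn (n + 1) := by
  unfold Fn
  rw [iteratedDeriv_succ]

theorem Fn_ent (hF : S_F) (n : ℕ) : Ent (Fn n) := ent_iterate n hF.1

theorem Fn_ne (hzb : S_zb) (n : ℕ) : ∃ z, Fn n z ≠ 0 := by
  obtain ⟨c, n0, hc, h⟩ := hzb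
  have key : ∀ k : ℕ, (∃ z, Fn (n + k) z ≠ 0) → ∃ z, Fn n z ≠ 0 := by
    intro k
    induction k with
    | zero => exact fun h => h
    | succ k ih =>
        intro h1
        apply ih
        rw [← Nat.add_assoc, ← Fn_succ] at h1
        exact not_const h1
  apply key (n0 + 1)
  refine ⟨0, fun h0 => ?_⟩
  have h1 := h (n + (n0 + 1)) (by omega) 0 h0
  rw [norm_zero] at h1
  have h2 : 0 < c * ((n + (n0 + 1) : ℕ) : ℝ) ^ (5 / 4 : ℝ) := by
    apply mul_pos hc
    apply Real.rpow_pos_of_pos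
    push_cast
    positivity
  linarith

theorem par_convex : Convex ℝ Par := by
  intro x hx y hy a b ha hb hab
  simp only [Par, Set.mem_ofPred_eq] at *
  simp only [add_im, add_re, Complex.real_smul, re_ofReal_mul, im_ofReal_mul]
  have hb' : b = 1 - a := by linarith
  subst hb'
  have h1 := mul_le_mul_of_nonneg_left hx ha
  have h2 := mul_le_mul_of_nonneg_left hy hb
  have h3 : 0 ≤ a * (1 - a) * (x.im - y.im) ^ 2 := by positivity
  nlinarith

theorem par_closed : IsClosed Par := by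
  unfold Par
  apply isClosed_le <;> fun_prop

theorem Fn_par (hF : S_F) (hzb : S_zb) (n : ℕ) : ∀ x, Fn n x = 0 → x ∈ Par := by
  induction n with
  | zero =>
      intro x hx
      apply hF.2.2 x
      simpa [Fn] using hx
  | succ n ih =>
      intro x hx
      rw [← Fn_succ] at hx
      have h1 := Fn_ne hzb (n + 1)
      rw [← Fn_succ] at h1
      exact t_gl (Fn n) (Fn_ent hF n) h1 Par par_convex par_closed ih x hx

theorem par_sq {z : ℂ} (h : z ^ 2 ∈ Par) : |z.re| ≤ 1 / 2 := by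
  simp only [Par, Set.mem_ofPred_eq, sq, mul_re, mul_im] at h
  have h1 : (4 * z.im ^ 2 + 1) * (z.re ^ 2 - 1 / 4) ≤ 0 := by nlinarith
  have h2 : z.re ^ 2 - 1 / 4 ≤ 0 := by
    by_contra hcon
    push Not at hcon
    have : 0 < (4 * z.im ^ 2 + 1) * (z.re ^ 2 - 1 / 4) := by positivity
    linarith
  apply abs_le_of_sq_le_sq _ (by norm_num)
  linarith

theorem exists_sq (x : ℂ) : ∃ z : ℂ, z ^ 2 = x := by
  obtain ⟨z, hz⟩ := IsAlgClosed.exists_pow_nat_eq x (n := 2) (by norm_num)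
  exact ⟨z, hz⟩

/-- consequence of `S_mid` -/
theorem mid_small (hF : S_F) (hzb : S_zb) (hmid : S_mid) {ε : ℝ} (hε : 0 < ε) :
    ∃ (A : ℝ) (n0 : ℕ), 1 ≤ A ∧ ∀ n : ℕ, n0 ≤ n → ∀ x : ℂ, Fn n x = 0 →
      ‖x‖ ≤ Real.exp ((8 - ε) * n) → x.im ≠ 0 → ‖x‖ ≤ 1 / 4 + (n : ℝ) ^ (2 * A) := by
  obtain ⟨A, n0, h⟩ := hmid (ε / 4) (by positivity)
  refine ⟨max A 1, max n0 1, le_max_right _ _, ?_⟩
  intro n hn x hx hxn hxim
  have hn1 : (1 : ℝ) ≤ n := by exact_mod_cast (le_max_right n0 1).trans hn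
  obtain ⟨z, rfl⟩ := exists_sq x
  have hre := par_sq (Fn_par hF hzb n _ hx)
  rw [norm_pow] at hxn ⊢
  have him : |z.im| ≤ Real.exp ((4 - ε / 4) * n) := by
    have h1 : |z.im| ≤ ‖z‖ := abs_im_le_norm z
    have h2 : ‖z‖ ≤ Real.exp ((4 - ε / 2) * n) := by
      apply le_of_sq_le_sq _ (Real.exp_pos _).le
      refine hxn.trans (le_of_eq ?_)
      rw [← Real.exp_nat_mul]
      congr 1
      push_cast; ring
    refine h1.trans (h2.trans (Real.exp_le_exp.2 ?_))
    apply mul_le_mul_of_nonneg_right _ (by positivity)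
    linarith
  have hlt : |z.im| < (n : ℝ) ^ A := by
    by_contra hcon
    push Not at hcon
    have h3 := h n ((le_max_left _ _).trans hn) z hx hre hcon him
    apply hxim
    rw [sq, mul_im, h3]; ring
  have hlt2 : |z.im| ≤ (n : ℝ) ^ (max A 1) :=
    hlt.le.trans (Real.rpow_le_rpow_of_exponent_le hn1 (le_max_left _ _))
  rw [Complex.sq_norm, normSq_apply]
  have h4 : z.re * z.re ≤ 1 / 4 := by
    have := sq_le_sq' (by linarith [neg_abs_le z.re, abs_nonneg z.re, (abs_le.1 hre).1] : -(1 / 2) ≤ z.re)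
      (abs_le.1 hre).2
    nlinarith
  have h5 : z.im * z.im ≤ (n : ℝ) ^ (2 * max A 1) := by
    have h6 : (n : ℝ) ^ (2 * max A 1) = ((n : ℝ) ^ (max A 1)) ^ 2 := by
      rw [← Real.rpow_natCast, ← Real.rpow_mul (by positivity)]
      congr 1
      push_cast; ring
    rw [h6, ← abs_mul_abs_self z.im, ← sq]
    exact pow_le_pow_left₀ (abs_nonneg _) hlt2 2
  linarith

theorem disc_step {f : ℂ → ℂ} (hf : Ent f) (hd : ∃ z, deriv f z ≠ 0) (hpar : ∀ x, f x = 0 → x ∈ Par)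
    {x : ℂ} (hx : deriv f x = 0) (hxim : x.im ≠ 0) :
    ∃ y : ℂ, f y = 0 ∧ y.im ≠ 0 ∧ ‖y‖ ≤ 3 * ‖x‖ + 4 ∧ |x.im| ≤ |y.im| ∧ |x.re| ≤ |y.re| + |y.im| := by
  obtain ⟨y, hy1, hy2, hy3⟩ := t_disc f hf hd x hxim hx
  have hp := hpar y hy1
  simp only [Par, Set.mem_ofPred_eq] at hp
  have h1 : |y.im| ≤ |y.re| / 2 + 1 := by
    apply abs_le_of_sq_le_sq _ (by positivity)
    have h2 := neg_abs_le y.re
    nlinarith [sq_nonneg |y.re|]
  have h3 : |y.re| ≤ ‖x‖ + |y.im| := by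
    calc |y.re| = ‖(y.re : ℂ)‖ := by simp
      _ = ‖x - (x - y.re)‖ := by ring_nf
      _ ≤ ‖x‖ + ‖x - y.re‖ := norm_sub_le _ _
      _ ≤ ‖x‖ + |y.im| := by linarith
  refine ⟨y, hy1, hy2, ?_, ?_, ?_⟩
  · have := norm_le_abs_re_add_abs_im y
    linarith
  · have h4 := abs_im_le_norm (x - y.re)
    simp at h4
    exact h4.trans hy3
  · have h4 := abs_re_le_norm (x - y.re)
    simp at h4
    have h5 : |x.re| ≤ |y.re| + |x.re - y.re| := by
      calc |x.re| = |y.re + (x.re - y.re)| := by ring_nf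
        _ ≤ _ := abs_add_le _ _
    linarith

theorem low1 (hmid : S_mid) (hzb : S_zb) (hF : S_F) {ε : ℝ} (hε : 0 < ε) (hε1 : ε ≤ 1) :
    ∃ n1 : ℕ, ∀ n : ℕ, n1 ≤ n → ∀ x : ℂ, Fn n x = 0 →
      ‖x‖ ≤ Real.exp ((8 - ε) * n) → x.im = 0 := by
  obtain ⟨A, n0, hA, hsm⟩ := mid_small hF hzb hmid hε
  -- polynomial versus exponential
  have hpe : ∀ᶠ n : ℕ in atTop, 3 * (1 / 4 + ((n + 1 : ℕ) : ℝ) ^ (2 * A)) + 4 ≤
      Real.exp ((8 - ε) * n) := by
    have h1 : Tendsto (fun x : ℝ => (3 * (1 / 4 + x ^ (2 * A)) + 4) / Real.exp (7 * x)) atTop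
        (𝓝 0) := by
      have h2 := tendsto_rpow_mul_exp_neg_mul_atTop_nhds_zero (2 * A) 7 (by norm_num)
      have h3 := tendsto_rpow_mul_exp_neg_mul_atTop_nhds_zero 0 7 (by norm_num)
      have h4 := (h2.const_mul 3).add (h3.const_mul (19 / 4))
      simp only [mul_zero, add_zero] at h4
      refine h4.congr fun x => ?_
      have e7 : Real.exp (-7 * x) = (Real.exp (7 * x))⁻¹ := by
        rw [← Real.exp_neg]; ring_nf
      rw [Real.rpow_zero, e7]
      ring
    have h5 : Tendsto (fun n : ℕ => ((n + 1 : ℕ) : ℝ)) atTop atTop :=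
      tendsto_natCast_atTop_atTop.comp (tendsto_add_atTop_nat 1)
    have h6 := (h1.comp h5).eventually (gt_mem_nhds (Real.exp_pos (-7)))
    filter_upwards [h6] with n hn
    simp only [Function.comp] at hn
    rw [div_lt_iff₀ (Real.exp_pos _), ← Real.exp_add] at hn
    refine hn.le.trans (Real.exp_le_exp.2 ?_)
    push_cast
    have : (0 : ℝ) ≤ n := Nat.cast_nonneg n
    nlinarith
  obtain ⟨m0, hm0⟩ := eventually_atTop.1 hpe
  set N0 := max n0 m0 with hN0
  set B0 := Real.exp ((8 - ε) * N0) with hB0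
  have hB0pos : 0 < B0 := Real.exp_pos _
  have inv : ∀ k : ℕ, ∀ y : ℂ, Fn (N0 + k) y = 0 → y.im ≠ 0 →
      ‖y‖ ≤ Real.exp ((8 - ε) * (N0 + k : ℕ)) → |y.im| ≤ B0 ∧ |y.re| ≤ B0 + B0 * k := by
    intro k
    induction k with
    | zero =>
        intro y _ _ hy
        simp only [add_zero] at hy
        have h1 := (abs_im_le_norm y).trans hy
        have h2 := (abs_re_le_norm y).trans hy
        refine ⟨h1, ?_⟩
        simpa using h2
    | succ k ih =>
        intro x hx hxim hxn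
        rw [← Nat.add_assoc] at hx hxn
        have h1 := hsm (N0 + k + 1) (by omega) x hx hxn hxim
        rw [← Fn_succ] at hx
        have hd := Fn_ne hzb (N0 + k + 1)
        rw [← Fn_succ] at hd
        obtain ⟨y, hy1, hy2, hy3, hy4, hy5⟩ := disc_step (Fn_ent hF (N0 + k)) hd
          (Fn_par hF hzb (N0 + k)) hx hxim
        have h2 : ‖y‖ ≤ Real.exp ((8 - ε) * (N0 + k : ℕ)) := by
          refine le_trans ?_ (hm0 (N0 + k) (by omega))
          linarith
        obtain ⟨h3, h4⟩ := ih y hy1 hy2 h2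
        refine ⟨hy4.trans h3, ?_⟩
        push_cast
        linarith
  obtain ⟨c, n2, hc, hz⟩ := hzb
  -- superlinear
  have hsup : ∀ᶠ n : ℕ in atTop, 2 * B0 + B0 * n < c * (n : ℝ) ^ (5 / 4 : ℝ) := by
    have h1 : Tendsto (fun x : ℝ => c * x ^ (1 / 4 : ℝ)) atTop atTop :=
      (tendsto_rpow_atTop (by norm_num)).const_mul_atTop hc
    have h2 := (h1.comp tendsto_natCast_atTop_atTop).eventually (eventually_gt_atTop (3 * B0))
    filter_upwards [h2, eventually_ge_atTop 1] with n hn hn1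
    simp only [Function.comp] at hn
    have hn1' : (1 : ℝ) ≤ n := by exact_mod_cast hn1
    have h3 : (n : ℝ) ^ (5 / 4 : ℝ) = n * (n : ℝ) ^ (1 / 4 : ℝ) := by
      rw [← Real.rpow_one_add' (by positivity) (by norm_num)]
      norm_num
    rw [h3]
    have h4 : (n : ℝ) * (3 * B0) < n * (c * (n : ℝ) ^ (1 / 4 : ℝ)) :=
      mul_lt_mul_of_pos_left hn (by linarith)
    nlinarith
  obtain ⟨m1, hm1⟩ := eventually_atTop.1 hsup
  refine ⟨max (max N0 n2) m1, ?_⟩
  intro n hn x hx hxn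
  by_contra hxim
  have hnN : N0 ≤ n := (le_max_left _ _).trans ((le_max_left _ _).trans hn)
  obtain ⟨k, rfl⟩ := Nat.exists_eq_add_of_le hnN
  obtain ⟨h1, h2⟩ := inv k x hx hxim hxn
  have h3 := hz (N0 + k) ((le_max_right _ _).trans ((le_max_left _ _).trans hn)) x hx
  have h4 := hm1 (N0 + k) ((le_max_right _ _).trans hn)
  have h5 := norm_le_abs_re_add_abs_im x
  have h6 : B0 * (k : ℝ) ≤ B0 * ((N0 + k : ℕ) : ℝ) := by
    apply mul_le_mul_of_nonneg_left _ hB0pos.le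
    push_cast
    have : (0 : ℝ) ≤ N0 := Nat.cast_nonneg _
    linarith
  linarith

theorem t_low (hmid : S_mid) (hzb : S_zb) (hF : S_F) : S_low := by
  intro ε hε
  obtain ⟨n1, h⟩ := low1 hmid hzb hF (ε := min ε 1) (lt_min hε one_pos) (min_le_right _ _)
  refine ⟨n1, fun n hn x hx hxn => h n hn x hx (hxn.trans (Real.exp_le_exp.2 ?_))⟩
  have : (0 : ℝ) ≤ n := Nat.cast_nonneg n
  apply mul_le_mul_of_nonneg_right _ this
  linarith [min_le_left ε 1]

end Pool.Agent.J4H8.JP
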