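import Pool.Agent.J4H8.JP.Mom
import Pool.Agent.J4H8.JP.Low

set_option autoImplicit false

/-! # helper8: `S_pos` and `S_zb` from the moment formula -/

namespace Pool.Agent.J4H8.JP

open Complex Filter Topology
open scoped ComplexConjugate
open Pool.Agent.J4H1.JP

/-- the Taylor coefficients in terms of the moments -/
noncomputable def ga (k : ℕ) : ℝ := (k.factorial : ℝ) / ((2 * k).factorial : ℝ) * Mo k

/-- moment formula -/
def MomF : Prop := ∀ k : ℕ, Fn k 0 = (ga k : ℂ)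

theorem ga_pos (k : ℕ) : 0 < ga k := by
  unfold ga
  have := Mo_pos k
  positivity

theorem t_pos (hm : MomF) : S_pos := by
  intro n
  rw [hm n]
  exact ⟨by simpa using ga_pos n, by simp⟩

theorem Fn_ne' (hm : MomF) (n : ℕ) : ∃ z, Fn n z ≠ 0 := by
  refine ⟨0, ?_⟩
  rw [hm n]
  exact_mod_cast (ga_pos n).ne'

theorem Fn_par' (hF : S_F) (hm : MomF) (n : ℕ) : ∀ x, Fn n x = 0 → x ∈ Par := by
  induction n with
  | zero =>
      intro x hx
      apply hF.2.2 x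
      simpa [Fn] using hx
  | succ n ih =>
      intro x hx
      rw [← Fn_succ] at hx
      have h1 := Fn_ne' hm (n + 1)
      rw [← Fn_succ] at h1
      exact t_gl (Fn n) (Fn_ent hF n) h1 Par par_convex par_closed ih x hx

/-- ratio of consecutive coefficients -/
noncomputable def ra (k : ℕ) : ℝ := rho k / (2 * (2 * k + 1))

theorem ra_pos (k : ℕ) : 0 < ra k := by
  unfold ra
  have := rho_pos k
  positivity

theorem ga_succ (k : ℕ) : ga (k + 1) = ra k * ga k := by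
  unfold ga ra rho
  have h := (Mo_pos k).ne'
  have h1 : ((k + 1).factorial : ℝ) = (k + 1) * k.factorial := by
    rw [Nat.factorial_succ]; push_cast; ring
  have h2 : ((2 * (k + 1)).factorial : ℝ) = (2 * k + 2) * ((2 * k + 1) * (2 * k).factorial) := by
    rw [show 2 * (k + 1) = 2 * k + 1 + 1 by ring, Nat.factorial_succ, Nat.factorial_succ]
    push_cast; ring
  have h3 : ((2 * k).factorial : ℝ) ≠ 0 := by positivity
  rw [h1, h2]
  field_simp

theorem ra_le : ∃ D : ℝ, 0 < D ∧ ∀ k : ℕ, 1 ≤ k → ra k ≤ D * (k : ℝ) ^ (-(3 / 4) : ℝ) := by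
  obtain ⟨D, hD, h⟩ := rho_le
  refine ⟨D, hD, fun k hk => ?_⟩
  have hk0 : (0 : ℝ) < k := by exact_mod_cast hk
  have h1 := h k hk
  unfold ra
  rw [div_le_iff₀ (by positivity)]
  refine h1.trans ?_
  have h2 : (k : ℝ) ^ (1 / 4 : ℝ) = (k : ℝ) ^ (-(3 / 4) : ℝ) * k := by
    rw [← Real.rpow_add_one hk0.ne']
    norm_num
  rw [h2, ← mul_assoc]
  apply mul_le_mul_of_nonneg_left _ (by positivity)
  linarith

theorem ra_small {δ : ℝ} (hδ : 0 < δ) : ∃ n0 : ℕ, ∀ n : ℕ, n0 ≤ n → ra n ≤ δ := by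
  obtain ⟨D, hD, h⟩ := ra_le
  have h1 : Tendsto (fun n : ℕ => D * (n : ℝ) ^ (-(3 / 4) : ℝ)) atTop (𝓝 (D * 0)) :=
    ((tendsto_rpow_neg_atTop (by norm_num)).comp tendsto_natCast_atTop_atTop).const_mul D
  rw [mul_zero] at h1
  obtain ⟨n0, hn0⟩ := eventually_atTop.1 (h1.eventually (gt_mem_nhds hδ))
  refine ⟨max n0 1, fun n hn => (h n ((le_max_right _ _).trans hn)).trans
    (hn0 n ((le_max_left _ _).trans hn)).le⟩

theorem ga_add_le {δ : ℝ} {n : ℕ} (h : ∀ m, n ≤ m → ra m ≤ δ) (k : ℕ) :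
    ga (n + k) ≤ ga n * δ ^ k := by
  induction k with
  | zero => simp
  | succ k ih =>
      rw [← Nat.add_assoc, ga_succ, pow_succ]
      have h1 := h (n + k) (Nat.le_add_right n k)
      have h2 := ga_pos (n + k)
      have h3 := ra_pos (n + k)
      calc ra (n + k) * ga (n + k) ≤ δ * (ga n * δ ^ k) :=
            mul_le_mul h1 ih h2.le (h3.le.trans h1)
        _ = _ := by ring

theorem iter_Fn (n k : ℕ) : iteratedDeriv k (Fn n) = Fn (n + k) := by
  unfold Fn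
  rw [iteratedDeriv_eq_iterate, iteratedDeriv_eq_iterate, iteratedDeriv_eq_iterate,
    ← Function.iterate_add_apply, add_comm]

theorem no_small (hF : S_F) (hm : MomF) : ∃ n0 : ℕ, ∀ n : ℕ, n0 ≤ n → ∀ x : ℂ, Fn n x = 0 →
    2 < ‖x‖ := by
  obtain ⟨n0, hn0⟩ := ra_small (δ := 1 / 8) (by norm_num)
  refine ⟨n0, fun n hn x hx => ?_⟩
  by_contra hcon
  push Not at hcon
  have h1 := Complex.hasSum_taylorSeries_of_entire (Fn_ent hF n).diff 0 x
  simp only [sub_zero, smul_eq_mul] at h1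
  rw [hx] at h1
  have h2 : ∀ k : ℕ, ‖(k.factorial : ℂ)⁻¹ * (x ^ k * iteratedDeriv k (Fn n) 0)‖ ≤
      ga n * (1 / 4) ^ k := by
    intro k
    rw [iter_Fn, hm, norm_mul, norm_mul, norm_inv, norm_pow, norm_real,
      Real.norm_of_nonneg (ga_pos _).le]
    have h3 : ‖(k.factorial : ℂ)‖⁻¹ ≤ 1 := by
      rw [Complex.norm_natCast]
      apply inv_le_one_of_one_le₀
      exact_mod_cast Nat.one_le_iff_ne_zero.2 (Nat.factorial_ne_zero k)
    have h4 := ga_add_le (fun m hm => hn0 m (hn.trans hm)) k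
    have h5 := ga_pos n
    have h6 := ga_pos (n + k)
    calc ‖(k.factorial : ℂ)‖⁻¹ * (‖x‖ ^ k * ga (n + k)) ≤ 1 * (2 ^ k * (ga n * (1 / 8) ^ k)) := by
          gcongr
      _ = ga n * (1 / 4) ^ k := by
          rw [one_mul, mul_left_comm, ← mul_pow]
          norm_num
  have h7 := (hasSum_nat_add_iff' 1).2 h1
  simp only [Finset.range_one, Finset.sum_singleton, Nat.factorial_zero, Nat.cast_one, inv_one,
    pow_zero, one_mul, iteratedDeriv_zero, zero_sub] at h7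
  have h8 : Summable (fun k : ℕ => ga n * (1 / 4 : ℝ) ^ (k + 1)) := by
    apply Summable.mul_left
    exact (summable_nat_add_iff 1).2 (summable_geometric_of_lt_one (by norm_num) (by norm_num))
  have h9 : ‖-Fn n 0‖ ≤ ∑' k : ℕ, ga n * (1 / 4 : ℝ) ^ (k + 1) := by
    rw [← h7.tsum_eq]
    exact tsum_of_norm_bounded h8.hasSum (fun k => h2 (k + 1))
  rw [tsum_mul_left] at h9
  have h10 : ∑' k : ℕ, (1 / 4 : ℝ) ^ (k + 1) = 1 / 3 := by
    have : ∀ k : ℕ, (1 / 4 : ℝ) ^ (k + 1) = (1 / 4) * (1 / 4) ^ k := fun k => by ring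
    simp_rw [this]
    rw [tsum_mul_left, tsum_geometric_of_lt_one (by norm_num) (by norm_num)]
    norm_num
  rw [h10, hm, norm_neg, norm_real, Real.norm_of_nonneg (ga_pos _).le] at h9
  have := ga_pos n
  linarith

theorem par_re_sq {a : ℂ} (ha : a ∈ Par) (h2 : 2 < ‖a‖) : 1 / (8 * ‖a‖ ^ 2) ≤ (1 / a ^ 2).re := by
  simp only [Par, Set.mem_ofPred_eq] at ha
  have h1 : 4 < ‖a‖ ^ 2 := by nlinarith
  have hn : ‖a‖ ^ 2 = a.re ^ 2 + a.im ^ 2 := by
    rw [Complex.sq_norm, normSq_apply]; ring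
  have hpos : 0 < ‖a‖ ^ 2 := by linarith
  have e : (1 / a ^ 2).re = (a.re ^ 2 - a.im ^ 2) / (‖a‖ ^ 2) ^ 2 := by
    rw [one_div, inv_re, map_pow, ← Complex.sq_norm]
    congr 1
    rw [sq a, mul_re]
    ring
  rw [e, div_le_div_iff₀ (by positivity) (by positivity)]
  -- t = |re|
  set t := |a.re| with ht
  have ht0 : 0 ≤ t := abs_nonneg _
  have ht2 : a.re ^ 2 = t ^ 2 := (sq_abs _).symm
  have h3 : a.im ^ 2 ≤ 1 / 4 + t := by
    have := neg_abs_le a.re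
    linarith
  have h4 : 3 / 2 < t := by
    by_contra hcon
    push Not at hcon
    nlinarith
  have h5 : ‖a‖ ^ 2 ≤ 8 * (a.re ^ 2 - a.im ^ 2) := by
    rw [hn, ht2]
    nlinarith
  have h6 : (‖a‖ ^ 2) ^ 2 = ‖a‖ ^ 2 * ‖a‖ ^ 2 := by ring
  rw [h6, one_mul]
  nlinarith

theorem t_zb (hF : S_F) (hsum : S_sum) (hm : MomF) : S_zb := by
  obtain ⟨n0, hn0⟩ := no_small hF hm
  obtain ⟨D, hD, hra⟩ := ra_le
  refine ⟨1 / (3 * D), max n0 1, by positivity, fun n hn a ha => ?_⟩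
  have hnn0 : n0 ≤ n := (le_max_left _ _).trans hn
  have hn1 : 1 ≤ n := (le_max_right _ _).trans hn
  have hnpos : (0 : ℝ) < n := by exact_mod_cast hn1
  have hz : ∀ b, Fn n b = 0 → 1 / (8 * ‖b‖ ^ 2) ≤ (1 / b ^ 2).re := fun b hb =>
    par_re_sq (Fn_par' hF hm n b hb) (hn0 n hnn0 b hb)
  have h0 : Fn n 0 ≠ 0 := by
    rw [hm n]
    exact_mod_cast (ga_pos n).ne'
  have h1 := hsum (Fn n) (Fn_ent hF n) h0 (fun b hb => by
    refine le_trans ?_ (hz b hb)
    positivity) a ha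
  have h2 := hz a ha
  have h3 : ((deriv (Fn n) 0 / Fn n 0) ^ 2 - deriv (deriv (Fn n)) 0 / Fn n 0).re =
      ra n ^ 2 - ra (n + 1) * ra n := by
    rw [Fn_succ, Fn_succ, hm, hm, hm, ga_succ (n + 1), ga_succ n]
    have hg := ga_pos n
    have e1 : ((ra n * ga n : ℝ) : ℂ) / (ga n : ℂ) = (ra n : ℂ) := by
      have : (ga n : ℂ) ≠ 0 := by exact_mod_cast hg.ne'
      push_cast
      field_simp
    have e2 : ((ra (n + 1) * (ra n * ga n) : ℝ) : ℂ) / (ga n : ℂ) = ((ra (n + 1) * ra n : ℝ) : ℂ) := by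
      have : (ga n : ℂ) ≠ 0 := by exact_mod_cast hg.ne'
      push_cast
      field_simp
    rw [e1, e2, ← ofReal_pow, ← ofReal_sub, ofReal_re]
  rw [h3] at h1
  have hr := ra_pos n
  have h4 : ra n * (2 * n + 1) / (2 * n + 3) ≤ ra (n + 1) := by
    have h5 : rho n ≤ rho (n + 1) := rho_mono (Nat.le_succ n)
    unfold ra
    push_cast
    rw [div_mul_eq_mul_div, div_div, div_le_div_iff₀ (by positivity) (by positivity)]
    have : 0 < (2 * (n : ℝ) + 1) := by positivity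
    have h6 : 0 < (2 * (2 * (n : ℝ) + 1) * (2 * n + 3)) := by positivity
    calc rho n * (2 * n + 1) * (2 * (2 * ((n : ℝ) + 1) + 1)) =
        rho n * (2 * (2 * (n : ℝ) + 1) * (2 * n + 3)) := by ring
      _ ≤ rho (n + 1) * (2 * (2 * (n : ℝ) + 1) * (2 * n + 3)) :=
        mul_le_mul_of_nonneg_right h5 h6.le
  have h7 : ra n ^ 2 - ra (n + 1) * ra n ≤ ra n ^ 2 / n := by
    have h8 : ra n * (2 * n + 1) / (2 * n + 3) * ra n ≤ ra (n + 1) * ra n :=
      mul_le_mul_of_nonneg_right h4 hr.le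
    have h9 : ra n ^ 2 - ra n * (2 * n + 1) / (2 * n + 3) * ra n = ra n ^ 2 * (2 / (2 * n + 3)) := by
      field_simp
      ring
    have h10 : (2 : ℝ) / (2 * n + 3) ≤ 1 / n := by
      rw [div_le_div_iff₀ (by positivity) hnpos]
      linarith
    have h11 : ra n ^ 2 * (2 / (2 * n + 3)) ≤ ra n ^ 2 * (1 / n) :=
      mul_le_mul_of_nonneg_left h10 (by positivity)
    have h12 : ra n ^ 2 * (1 / n) = ra n ^ 2 / n := by ring
    linarith
  have h8 : 1 / (8 * ‖a‖ ^ 2) ≤ (D * (n : ℝ) ^ (-(3 / 4) : ℝ)) ^ 2 / n := by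
    refine h2.trans (h1.trans (h7.trans ?_))
    have := hra n hn1
    gcongr
  have ha0 : 0 < ‖a‖ := by
    have := hn0 n hnn0 a ha
    linarith
  have h9 : (D * (n : ℝ) ^ (-(3 / 4) : ℝ)) ^ 2 / n = D ^ 2 / ((n : ℝ) ^ (5 / 4 : ℝ)) ^ 2 := by
    have e1 : ((n : ℝ) ^ (5 / 4 : ℝ)) ^ 2 = (n : ℝ) ^ (5 / 2 : ℝ) := by
      rw [← Real.rpow_natCast, ← Real.rpow_mul hnpos.le]; norm_num
    have e2 : ((n : ℝ) ^ (-(3 / 4) : ℝ)) ^ 2 = (n : ℝ) ^ (-(3 / 2) : ℝ) := by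
      rw [← Real.rpow_natCast, ← Real.rpow_mul hnpos.le]; norm_num
    have e3 : (n : ℝ) ^ (-(3 / 2) : ℝ) * (n : ℝ) ^ (5 / 2 : ℝ) = n := by
      rw [← Real.rpow_add hnpos]; norm_num
    rw [mul_pow, e1, e2, div_eq_div_iff hnpos.ne' (by positivity)]
    rw [mul_assoc, e3]
  rw [h9, div_le_div_iff₀ (by positivity) (by positivity), one_mul] at h8
  -- (n^{5/4})^2 ≤ 8 D² ‖a‖²
  have h10 : (n : ℝ) ^ (5 / 4 : ℝ) ≤ 3 * D * ‖a‖ := by
    apply le_of_sq_le_sq _ (by positivity)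
    nlinarith [sq_nonneg (D * ‖a‖)]
  rw [one_div, inv_mul_le_iff₀ (by positivity)]
  exact h10

end Pool.Agent.J4H8.JP
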