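import Pool.Agent.J4H8.JP.Der

set_option autoImplicit false

/-! # helper8: `S_had` (Hadamard's theorem for order `< 1`, in the form of real polynomial approximants) -/

namespace Pool.Agent.J4H8.JP

open Complex Filter Topology Metric Polynomial
open scoped ComplexConjugate
open Pool.Agent.J4H1.JP

/-- a real monic factor with roots in the disc -/
structure Fac (f : ℂ → ℂ) (R : ℝ) (P : ℝ[X]) (h : ℂ → ℂ) : Prop where
  monic : P.Monic
  rts : ∀ z : ℂ, aeval z P = 0 → ‖z‖ < R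
  diff : Differentiable ℂ h
  sym : ∀ z : ℂ, h (conj z) = conj (h z)
  eq : ∀ z : ℂ, f z = aeval z P * h z

theorem aeval_prod (P : ℝ[X]) (hP : P.Monic) (z : ℂ) :
    aeval z P = ((P.map (algebraMap ℝ ℂ)).roots.map fun a => z - a).prod := by
  have h1 : (P.map (algebraMap ℝ ℂ)).Splits := IsAlgClosed.splits _
  have h2 := h1.eval_eq_prod_roots_of_monic (hP.map _) z
  rw [← h2, eval_map_algebraMap]

theorem card_roots' (P : ℝ[X]) : Multiset.card (P.map (algebraMap ℝ ℂ)).roots = P.natDegree := by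
  have h1 : (P.map (algebraMap ℝ ℂ)).Splits := IsAlgClosed.splits _
  have h2 := h1.natDegree_eq_card_roots
  rw [← h2, natDegree_map]

theorem mem_roots_aeval {P : ℝ[X]} {a : ℂ} (ha : a ∈ (P.map (algebraMap ℝ ℂ)).roots) :
    aeval a P = 0 := by
  have h1 := (mem_roots'.1 ha).2
  rw [IsRoot.def, eval_map_algebraMap] at h1
  exact h1

theorem norm_prod_ge (s : Multiset ℂ) {R : ℝ} (hR : 0 < R) (hs : ∀ a ∈ s, ‖a‖ < R) {z : ℂ}
    (hz : ‖z‖ = 4 * R) : (3 * R) ^ (Multiset.card s) ≤ ‖(s.map fun a => z - a).prod‖ := by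
  induction s using Multiset.induction_on with
  | empty => simp
  | cons a s ih =>
      rw [Multiset.card_cons, Multiset.map_cons, Multiset.prod_cons, norm_mul, pow_succ, mul_comm]
      have h1 := ih (fun b hb => hs b (Multiset.mem_cons_of_mem hb))
      have h2 := hs a (Multiset.mem_cons_self a s)
      have h3 : 3 * R ≤ ‖z - a‖ := by
        have := norm_sub_norm_le z a
        linarith
      exact mul_le_mul h3 h1 (by positivity) (norm_nonneg _)

theorem norm_prod_le (s : Multiset ℂ) {R : ℝ} (hs : ∀ a ∈ s, ‖a‖ < R) :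
    ‖(s.map fun a => (0 : ℂ) - a).prod‖ ≤ R ^ (Multiset.card s) := by
  induction s using Multiset.induction_on with
  | empty => simp
  | cons a s ih =>
      rw [Multiset.card_cons, Multiset.map_cons, Multiset.prod_cons, norm_mul, pow_succ, mul_comm]
      have h1 := ih (fun b hb => hs b (Multiset.mem_cons_of_mem hb))
      have h2 := hs a (Multiset.mem_cons_self a s)
      have h3 : ‖(0 : ℂ) - a‖ ≤ R := by
        rw [zero_sub, norm_neg]; exact h2.le
      have hR : 0 ≤ R := (norm_nonneg _).trans h3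
      exact mul_le_mul h1 h3 (norm_nonneg _) (by positivity)

/-- the key estimate: `(3R)^n ‖h z‖ ≤ M` for `‖z‖ ≤ 4R` -/
theorem Fac.bound {f h : ℂ → ℂ} {R M : ℝ} {P : ℝ[X]} (H : Fac f R P h) (hR : 0 < R)
    (hM : ∀ z : ℂ, ‖z‖ ≤ 4 * R → ‖f z‖ ≤ M) (z : ℂ) (hz : ‖z‖ ≤ 4 * R) :
    (3 * R) ^ P.natDegree * ‖h z‖ ≤ M := by
  have hpos : 0 < (3 * R) ^ P.natDegree := by positivity
  have key : ‖h z‖ ≤ M / (3 * R) ^ P.natDegree := by
    apply Complex.norm_le_of_forall_mem_frontier_norm_le (U := ball (0 : ℂ) (4 * R)) isBounded_ball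
      H.diff.diffContOnCl
    · intro w hw
      rw [frontier_ball (0 : ℂ) (by positivity)] at hw
      have hw' : ‖w‖ = 4 * R := by simpa using hw
      rw [le_div_iff₀ hpos, mul_comm]
      have h1 := hM w hw'.le
      rw [H.eq w, norm_mul, aeval_prod P H.monic w] at h1
      have h2 := norm_prod_ge (P.map (algebraMap ℝ ℂ)).roots hR
        (fun a ha => H.rts a (mem_roots_aeval ha)) hw'
      rw [card_roots'] at h2
      exact (mul_le_mul_of_nonneg_right h2 (norm_nonneg _)).trans h1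
    · rw [closure_ball (0 : ℂ) (by positivity)]
      simpa using hz
  rw [le_div_iff₀ hpos] at key
  linarith

theorem Fac.norm_zero {f h : ℂ → ℂ} {R : ℝ} {P : ℝ[X]} (H : Fac f R P h) :
    ‖f 0‖ ≤ R ^ P.natDegree * ‖h 0‖ := by
  rw [H.eq 0, norm_mul, aeval_prod P H.monic 0]
  have h2 := norm_prod_le (P.map (algebraMap ℝ ℂ)).roots
        (fun a ha => H.rts a (mem_roots_aeval ha))
  rw [card_roots'] at h2
  exact mul_le_mul_of_nonneg_right h2 (norm_nonneg _)

theorem Fac.degree {f h : ℂ → ℂ} {R M : ℝ} {P : ℝ[X]} (H : Fac f R P h) (hR : 0 < R)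
    (hM : ∀ z : ℂ, ‖z‖ ≤ 4 * R → ‖f z‖ ≤ M) : 3 ^ P.natDegree * ‖f 0‖ ≤ M := by
  have h1 := H.bound hR hM 0 (by simp; positivity)
  have h2 := H.norm_zero
  calc 3 ^ P.natDegree * ‖f 0‖ ≤ 3 ^ P.natDegree * (R ^ P.natDegree * ‖h 0‖) := by gcongr
    _ = (3 * R) ^ P.natDegree * ‖h 0‖ := by rw [mul_pow]; ring
    _ ≤ M := h1

theorem sym_of_mul {Q : ℝ[X]} (hQ : Q ≠ 0) {h k : ℂ → ℂ}
    (hs : ∀ z : ℂ, h (conj z) = conj (h z)) (hk : Continuous k)
    (e : ∀ z : ℂ, h z = aeval z Q * k z) : ∀ z : ℂ, k (conj z) = conj (k z) := by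
  have hfin : {z : ℂ | aeval z Q = 0}.Finite := by
    have h1 := (Q.rootSet_finite ℂ)
    refine h1.subset ?_
    intro z hz
    rw [mem_rootSet]
    exact ⟨hQ, hz⟩
  have hd : Dense ({z : ℂ | aeval z Q = 0}ᶜ) := hfin.countable.dense_compl ℝ
  have h3 : (fun z => k (conj z)) = fun z => conj (k z) := by
    apply Continuous.ext_on hd
    · exact hk.comp continuous_conj
    · exact continuous_conj.comp hk
    · intro z hz
      have hz' : aeval z Q ≠ 0 := hz
      have h1 := hs z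
      rw [e, e, map_mul, aeval_conj] at h1
      exact mul_left_cancel₀ ((_root_.map_ne_zero _).2 hz') h1
  intro z
  exact congrFun h3 z

theorem dslope_spec {h : ℂ → ℂ} (hd : Differentiable ℂ h) {a : ℂ} (ha : h a = 0) :
    Differentiable ℂ (dslope h a) ∧ ∀ z, h z = (z - a) * dslope h a z := by
  refine ⟨?_, ?_⟩
  · rw [← differentiableOn_univ] at hd ⊢
    exact (Complex.differentiableOn_dslope univ_mem).2 hd
  · intro z
    by_cases hz : z = a
    · rw [hz, ha, sub_self, zero_mul]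
    · rw [dslope_of_ne _ hz, slope_def_field, ha, sub_zero]
      field_simp [sub_ne_zero.2 hz]

theorem Fac.step {f h : ℂ → ℂ} {R : ℝ} {P : ℝ[X]} (H : Fac f R P h) {a : ℂ} (ha : h a = 0)
    (haR : ‖a‖ < R) : ∃ (P' : ℝ[X]) (h' : ℂ → ℂ), Fac f R P' h' ∧ P.natDegree < P'.natDegree := by
  by_cases hre : a.im = 0
  · have ea : (a.re : ℂ) = a := by
      apply Complex.ext <;> simp [hre]
    obtain ⟨hd, he⟩ := dslope_spec H.diff ha
    have he' : ∀ z : ℂ, h z = aeval z (X - C a.re : ℝ[X]) * dslope h a z := by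
      intro z
      rw [he z]
      simp [ea]
    refine ⟨P * (X - C a.re), dslope h a, ⟨?_, ?_, hd, ?_, ?_⟩, ?_⟩
    · exact H.monic.mul (monic_X_sub_C _)
    · intro z hz
      rw [map_mul, mul_eq_zero] at hz
      rcases hz with hz | hz
      · exact H.rts z hz
      · have : z = a := by
          have h1 : z - (a.re : ℂ) = 0 := by simpa using hz
          rw [ea] at h1
          exact sub_eq_zero.1 h1
        rw [this]; exact haR
    · exact sym_of_mul (X_sub_C_ne_zero _) H.sym hd.continuous he'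
    · intro z
      rw [H.eq z, map_mul, mul_assoc, ← he' z]
    · rw [(H.monic).natDegree_mul (monic_X_sub_C _), natDegree_X_sub_C]
      omega
  · obtain ⟨hd, he⟩ := dslope_spec H.diff ha
    have hb : dslope h a (conj a) = 0 := by
      have h1 := he (conj a)
      rw [H.sym, ha, map_zero] at h1
      have h2 : conj a - a ≠ 0 := by
        intro hcon
        have := congrArg Complex.im hcon
        simp at this
        apply hre
        linarith
      rcases mul_eq_zero.1 h1.symm with h3 | h3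
      · exact absurd h3 h2
      · exact h3
    obtain ⟨hd2, he2⟩ := dslope_spec hd hb
    set Q : ℝ[X] := X ^ 2 - C (2 * a.re) * X + C (a.re ^ 2 + a.im ^ 2) with hQ
    have hQm : Q.Monic := by
      rw [hQ]
      have : (X ^ 2 - C (2 * a.re) * X + C (a.re ^ 2 + a.im ^ 2) : ℝ[X]) =
        X ^ 2 + (C (-(2 * a.re)) * X + C (a.re ^ 2 + a.im ^ 2)) := by
        rw [C_neg]; ring
      rw [this]
      apply monic_X_pow_add
      exact (degree_linear_le).trans_lt (by norm_num)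
    have hQd : Q.natDegree = 2 := by
      have : Q = C 1 * X ^ 2 + C (-(2 * a.re)) * X + C (a.re ^ 2 + a.im ^ 2) := by
        rw [hQ, C_neg]; simp; ring
      rw [this]
      exact natDegree_quadratic one_ne_zero
    have hQe : ∀ z : ℂ, aeval z Q = (z - a) * (z - conj a) := by
      intro z
      have e1 : a = a.re + a.im * I := (re_add_im a).symm
      have e2 : conj a = a.re - a.im * I := by
        apply Complex.ext <;> simp
      rw [hQ]
      simp only [map_add, map_sub, map_mul, map_pow, aeval_X, aeval_C, coe_algebraMap]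
      rw [e2]
      conv_rhs => rw [e1]
      push_cast
      simp only [add_re, ofReal_re, mul_re, I_re, mul_zero, ofReal_im, I_im, mul_one, sub_self,
        add_zero, add_im, mul_im, zero_add, zero_mul]
      ring_nf
      simp only [I_sq]
      ring
    have he' : ∀ z : ℂ, h z = aeval z Q * dslope (dslope h a) (conj a) z := by
      intro z
      rw [he z, he2 z, hQe z]
      ring
    refine ⟨P * Q, dslope (dslope h a) (conj a), ⟨?_, ?_, hd2, ?_, ?_⟩, ?_⟩
    · exact H.monic.mul hQm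
    · intro z hz
      rw [map_mul, mul_eq_zero] at hz
      rcases hz with hz | hz
      · exact H.rts z hz
      · rw [hQe, mul_eq_zero] at hz
        rcases hz with hz | hz
        · rw [sub_eq_zero.1 hz]; exact haR
        · rw [sub_eq_zero.1 hz]; simpa using haR
    · exact sym_of_mul hQm.ne_zero H.sym hd2.continuous he'
    · intro z
      rw [H.eq z, map_mul, mul_assoc, ← he' z]
    · rw [(H.monic).natDegree_mul hQm, hQd]
      omega

theorem gro_mono {f : ℂ → ℂ} {C : ℝ} (hC : 0 ≤ C)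
    (hb : ∀ z : ℂ, ‖f z‖ ≤ Real.exp (C * (1 + ‖z‖) ^ (3 / 4 : ℝ))) {r : ℝ} :
    ∀ z : ℂ, ‖z‖ ≤ r → ‖f z‖ ≤ Real.exp (C * (1 + r) ^ (3 / 4 : ℝ)) := by
  intro z hz
  refine (hb z).trans (Real.exp_le_exp.2 ?_)
  gcongr

theorem exists_fac {f : ℂ → ℂ} (hf : Ent f) (h0 : f 0 ≠ 0) {R : ℝ} (hR : 0 < R) :
    ∃ (P : ℝ[X]) (h : ℂ → ℂ), Fac f R P h ∧ ∀ z : ℂ, ‖z‖ < R → h z ≠ 0 := by
  classical
  obtain ⟨C, hC, hb⟩ := hf.gro
  set M := Real.exp (C * (1 + 4 * R) ^ (3 / 4 : ℝ)) with hM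
  have hM' := gro_mono hC hb (r := 4 * R)
  set S : Set ℕ := {n | ∃ (P : ℝ[X]) (h : ℂ → ℂ), Fac f R P h ∧ P.natDegree = n} with hS
  have hne : S.Nonempty := by
    refine ⟨0, 1, f, ⟨monic_one, ?_, hf.diff, hf.sym, ?_⟩, natDegree_one⟩
    · intro z hz
      simp at hz
    · intro z; simp
  have hbdd : BddAbove S := by
    obtain ⟨k, hk⟩ : ∃ k : ℕ, M / ‖f 0‖ < 3 ^ k := pow_unbounded_of_one_lt _ (by norm_num)
    refine ⟨k, ?_⟩
    rintro n ⟨P, h, H, rfl⟩
    have h1 := H.degree hR hM'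
    have h2 : (3 : ℝ) ^ P.natDegree ≤ M / ‖f 0‖ := by
      rw [le_div_iff₀ (norm_pos_iff.2 h0)]; exact h1
    have h3 : (3 : ℝ) ^ P.natDegree < 3 ^ k := h2.trans_lt hk
    exact ((pow_lt_pow_iff_right₀ (by norm_num)).1 h3).le
  obtain ⟨P, h, H, hP⟩ := Nat.sSup_mem hne hbdd
  refine ⟨P, h, H, ?_⟩
  intro z hz hz0
  obtain ⟨P', h', H', hlt⟩ := H.step hz0 hz
  have h1 : P'.natDegree ∈ S := ⟨P', h', H', rfl⟩
  have h2 := le_csSup hbdd h1
  rw [hP] at hlt
  omega

/-- logarithm of a zero-free function on a disc -/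
theorem log_bound {h : ℂ → ℂ} {R M : ℝ} (hR : 0 < R) (hM : 0 < M) (hd : Differentiable ℂ h)
    (hne : ∀ z : ℂ, ‖z‖ < R → h z ≠ 0)
    (hb : ∀ z : ℂ, ‖z‖ < R → ‖h z‖ ≤ ‖h 0‖ * Real.exp M) :
    ∃ φ : ℂ → ℂ, ∀ z : ℂ, ‖z‖ < R → h z = h 0 * exp (φ z) ∧ ‖φ z‖ ≤ 2 * M * ‖z‖ / (R - ‖z‖) := by
  have h0 : h 0 ≠ 0 := hne 0 (by simpa using hR)
  have hq : DifferentiableOn ℂ (fun z => deriv h z / h z) (ball 0 R) := by
    intro z hz
    rw [mem_ball_zero_iff] at hz
    exact ((hd.deriv z).div (hd z) (hne z hz)).differentiableWithinAt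
  obtain ⟨φ, hφ0, hφ⟩ := hq.isExactOn_ball.with_val_at 0 0
  have hexp : ∀ z ∈ ball (0:ℂ) R, h z = h 0 * exp (φ z) := by
    have hk : ∀ z ∈ ball (0:ℂ) R, HasDerivAt (fun z => h z * exp (-φ z)) 0 z := by
      intro z hz
      have hz' : ‖z‖ < R := by rwa [mem_ball_zero_iff] at hz
      have := (hd z).hasDerivAt.mul ((hφ z hz).neg.cexp)
      refine this.congr_deriv ?_
      have := hne z hz'
      field_simp
      ring
    intro z hz
    have hc : (fun z => h z * exp (-φ z)) z = (fun z => h z * exp (-φ z)) 0 := by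
      apply (convex_ball (0:ℂ) R).is_const_of_fderivWithin_eq_zero (𝕜 := ℂ)
        (fun w hw => (hk w hw).differentiableAt.differentiableWithinAt) _ hz
        (mem_ball_self hR)
      intro w hw
      rw [fderivWithin_of_isOpen isOpen_ball hw]
      have := (hk w hw).hasFDerivAt.fderiv
      rw [this]
      ext; simp
    simp only [hφ0, neg_zero, exp_zero, mul_one] at hc
    rw [← hc, mul_assoc, ← exp_add]; simp
  have hmaps : Set.MapsTo φ (ball 0 R) {z | z.re ≤ M} := by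
    intro z hz
    show (φ z).re ≤ M
    have hz' : ‖z‖ < R := by rwa [mem_ball_zero_iff] at hz
    have h1 := hb z hz'
    rw [hexp z hz, norm_mul, Complex.norm_exp] at h1
    have h2 := le_of_mul_le_mul_left h1 (norm_pos_iff.2 h0)
    exact Real.exp_le_exp.1 h2
  have hφd : DifferentiableOn ℂ φ (ball 0 R) := fun z hz =>
    (hφ z hz).differentiableAt.differentiableWithinAt
  refine ⟨φ, fun z hz => ⟨hexp z (mem_ball_zero_iff.2 hz), ?_⟩⟩
  exact borelCaratheodory_zero hM hφd hmaps hR (mem_ball_zero_iff.2 hz) hφ0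

theorem im_eq_zero_of_sym {h : ℂ → ℂ} (hs : ∀ z : ℂ, h (conj z) = conj (h z)) (x : ℝ) :
    (h x).im = 0 := by
  have h1 := hs x
  rw [conj_ofReal] at h1
  exact conj_eq_iff_im.1 h1.symm

/-- uniform closeness on discs -/
theorem fac_close {f : ℂ → ℂ} (hf : Ent f) (h0 : f 0 ≠ 0) :
    ∃ K : ℝ, 0 < K ∧ ∀ R : ℝ, 1 ≤ R → ∃ P : ℝ[X], P ≠ 0 ∧ (∀ z : ℂ, aeval z P = 0 → f z = 0) ∧
      (∀ z : ℂ, ‖z‖ < R → f z = 0 → aeval z P = 0) ∧
      ∀ z : ℂ, ‖z‖ < R → ∃ w : ℂ, aeval z P = f z * exp w ∧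
        ‖w‖ ≤ K * R ^ (3 / 4 : ℝ) * ‖z‖ / (R - ‖z‖) := by
  obtain ⟨C, hC, hb⟩ := hf.gro
  have hf0 : 0 < ‖f 0‖ := norm_pos_iff.2 h0
  refine ⟨2 * (C * 5 + |Real.log ‖f 0‖| + 1), by positivity, ?_⟩
  intro R hR1
  have hR : 0 < R := by linarith
  obtain ⟨P, h, H, hz⟩ := exists_fac hf h0 hR
  have hh0 : h 0 ≠ 0 := hz 0 (by simpa using hR)
  have him : (h 0).im = 0 := by
    have := im_eq_zero_of_sym H.sym 0
    simpa using this
  have hre : ((h 0).re : ℂ) = h 0 := by
    apply Complex.ext <;> simp [him]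
  have hre0 : (h 0).re ≠ 0 := by
    intro hcon
    apply hh0
    rw [← hre, hcon]; simp
  have hM := gro_mono hC hb (r := 4 * R)
  set M : ℝ := C * (1 + 4 * R) ^ (3 / 4 : ℝ) + |Real.log ‖f 0‖| + 1 with hMdef
  have hMpos : 0 < M := by positivity
  have hRp : 1 ≤ R ^ (3 / 4 : ℝ) := Real.one_le_rpow hR1 (by norm_num)
  have hMle : 2 * M ≤ 2 * (C * 5 + |Real.log ‖f 0‖| + 1) * R ^ (3 / 4 : ℝ) := by
    have h1 : (1 + 4 * R) ^ (3 / 4 : ℝ) ≤ (5 * R) ^ (3 / 4 : ℝ) :=
      Real.rpow_le_rpow (by positivity) (by linarith) (by norm_num)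
    rw [Real.mul_rpow (by norm_num) hR.le] at h1
    have h2 : (5 : ℝ) ^ (3 / 4 : ℝ) ≤ 5 := by
      calc (5 : ℝ) ^ (3 / 4 : ℝ) ≤ (5 : ℝ) ^ (1 : ℝ) :=
            Real.rpow_le_rpow_of_exponent_le (by norm_num) (by norm_num)
        _ = 5 := Real.rpow_one 5
    have h3 : (1 + 4 * R) ^ (3 / 4 : ℝ) ≤ 5 * R ^ (3 / 4 : ℝ) :=
      h1.trans (mul_le_mul_of_nonneg_right h2 (by positivity))
    have h4 := mul_le_mul_of_nonneg_left h3 hC
    have h5 := abs_nonneg (Real.log ‖f 0‖)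
    nlinarith
  have hbd : ∀ z : ℂ, ‖z‖ < R → ‖h z‖ ≤ ‖h 0‖ * Real.exp M := by
    intro z hzR
    have h1 := H.bound hR hM z (by linarith)
    have h2 := H.norm_zero
    have h3 : 0 < R ^ P.natDegree := by positivity
    have h4 : 1 / ‖f 0‖ ≤ Real.exp (|Real.log ‖f 0‖|) := by
      rw [one_div, ← Real.exp_log (inv_pos.2 hf0), Real.log_inv]
      exact Real.exp_le_exp.2 (neg_le_abs _)
    have h5 : R ^ P.natDegree * ‖h z‖ ≤ Real.exp (C * (1 + 4 * R) ^ (3 / 4 : ℝ)) := by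
      refine le_trans ?_ h1
      gcongr
      linarith
    have h6 : ‖f 0‖ * (1 / ‖f 0‖) = 1 := by field_simp
    have h7 : R ^ P.natDegree * ‖h z‖ ≤ R ^ P.natDegree * (‖h 0‖ * Real.exp M) := by
      calc R ^ P.natDegree * ‖h z‖ ≤ Real.exp (C * (1 + 4 * R) ^ (3 / 4 : ℝ)) := h5
        _ = (‖f 0‖ * (1 / ‖f 0‖)) * Real.exp (C * (1 + 4 * R) ^ (3 / 4 : ℝ)) := by
            rw [h6, one_mul]
        _ ≤ ((R ^ P.natDegree * ‖h 0‖) * Real.exp (|Real.log ‖f 0‖|)) *
            Real.exp (C * (1 + 4 * R) ^ (3 / 4 : ℝ)) := by gcongr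
        _ = R ^ P.natDegree * (‖h 0‖ * Real.exp (C * (1 + 4 * R) ^ (3 / 4 : ℝ) +
            |Real.log ‖f 0‖|)) := by rw [Real.exp_add]; ring
        _ ≤ R ^ P.natDegree * (‖h 0‖ * Real.exp M) := by
            gcongr
            rw [hMdef]; linarith
    exact le_of_mul_le_mul_left h7 h3
  obtain ⟨φ, hφ⟩ := log_bound hR hMpos H.diff hz hbd
  refine ⟨Polynomial.C (h 0).re * P, ?_, ?_, ?_, ?_⟩
  · exact mul_ne_zero (Polynomial.C_ne_zero.2 hre0) H.monic.ne_zero
  · intro z hz0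
    rw [map_mul, aeval_C, coe_algebraMap, hre, mul_eq_zero] at hz0
    rcases hz0 with hz0 | hz0
    · exact absurd hz0 hh0
    · rw [H.eq z, hz0, zero_mul]
  · intro z hzR hz0
    rw [H.eq z, mul_eq_zero] at hz0
    rcases hz0 with hz0 | hz0
    · rw [map_mul, hz0, mul_zero]
    · exact absurd hz0 (hz z hzR)
  · intro z hzR
    obtain ⟨e1, e2⟩ := hφ z hzR
    refine ⟨-φ z, ?_, ?_⟩
    · rw [map_mul, aeval_C, coe_algebraMap, hre, H.eq z, e1]
      have : exp (φ z) * exp (-φ z) = 1 := by rw [← exp_add]; simp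
      linear_combination (-(aeval z P * h 0)) * this
    · rw [norm_neg]
      refine e2.trans ?_
      have : 0 < R - ‖z‖ := by linarith
      gcongr

theorem had0 {f : ℂ → ℂ} (hf : Ent f) (h0 : f 0 ≠ 0) : RApp f := by
  obtain ⟨K, hK, hfac⟩ := fac_close hf h0
  have hfac' : ∀ N : ℕ, ∃ P : ℝ[X], P ≠ 0 ∧ (∀ z : ℂ, aeval z P = 0 → f z = 0) ∧
      (∀ z : ℂ, ‖z‖ < (N : ℝ) + 1 → f z = 0 → aeval z P = 0) ∧
      ∀ z : ℂ, ‖z‖ < (N : ℝ) + 1 → ∃ w : ℂ, aeval z P = f z * exp w ∧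
        ‖w‖ ≤ K * ((N : ℝ) + 1) ^ (3 / 4 : ℝ) * ‖z‖ / ((N : ℝ) + 1 - ‖z‖) := fun N =>
    hfac ((N : ℝ) + 1) (by linarith [(Nat.cast_nonneg N : (0 : ℝ) ≤ N)])
  choose P hP1 hP2 hP3 hP4 using hfac'
  refine ⟨P, hP1, hP2, ?_, ?_⟩
  · intro z hz
    filter_upwards [eventually_gt_atTop ⌈‖z‖⌉₊] with N hN
    apply hP3 N z _ hz
    have h1 : ‖z‖ ≤ ⌈‖z‖⌉₊ := Nat.le_ceil _
    have h2 : ((⌈‖z‖⌉₊ : ℕ) : ℝ) < N := by exact_mod_cast hN
    linarith
  · rw [← tendstoLocallyUniformlyOn_univ, tendstoLocallyUniformlyOn_iff_forall_isCompact isOpen_univ]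
    intro Kc _ hKc
    obtain ⟨r0, hr0⟩ := hKc.isBounded.exists_norm_le
    set r : ℝ := max r0 1 with hrdef
    have hr : ∀ z ∈ Kc, ‖z‖ ≤ r := fun z hz => (hr0 z hz).trans (le_max_left _ _)
    have hr1 : 1 ≤ r := le_max_right _ _
    obtain ⟨B, hB⟩ : ∃ B : ℝ, ∀ z ∈ Kc, ‖f z‖ ≤ B :=
      (hKc.image hf.diff.continuous).isBounded.exists_norm_le.imp (fun B hB z hz => hB _ ⟨z, hz, rfl⟩)
    -- the quantity tends to zero
    have hlim : Tendsto (fun N : ℕ => K * ((N : ℝ) + 1) ^ (3 / 4 : ℝ) * r / ((N : ℝ) + 1 - r)) atTop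
        (𝓝 0) := by
      have h1 : Tendsto (fun x : ℝ => K * r * (x ^ (-(1 / 4) : ℝ) / (1 - r / x))) atTop
          (𝓝 (K * r * (0 / (1 - 0)))) := by
        apply Tendsto.const_mul
        apply Tendsto.div
        · exact tendsto_rpow_neg_atTop (by norm_num)
        · apply Tendsto.const_sub
          exact tendsto_const_nhds.div_atTop tendsto_id
        · norm_num
      have h2 : Tendsto (fun N : ℕ => (N : ℝ) + 1) atTop atTop :=
        tendsto_atTop_add_const_right _ _ tendsto_natCast_atTop_atTop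
      have h3 := h1.comp h2
      rw [zero_div, mul_zero] at h3
      refine h3.congr' ?_
      filter_upwards [eventually_gt_atTop ⌈r⌉₊] with N hN
      have h4 : r ≤ ⌈r⌉₊ := Nat.le_ceil _
      have h5 : ((⌈r⌉₊ : ℕ) : ℝ) < N := by exact_mod_cast hN
      have h6 : (0 : ℝ) < (N : ℝ) + 1 := by positivity
      have h7 : (N : ℝ) + 1 - r ≠ 0 := by
        have : 0 < (N : ℝ) + 1 - r := by linarith
        exact this.ne'
      simp only [Function.comp]
      have h8 : ((N : ℝ) + 1) ^ (3 / 4 : ℝ) = ((N : ℝ) + 1) * ((N : ℝ) + 1) ^ (-(1 / 4) : ℝ) := by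
        rw [← Real.rpow_one_add' h6.le (by norm_num)]
        norm_num
      rw [h8]
      have h9 : 1 - r / ((N : ℝ) + 1) = ((N : ℝ) + 1 - r) / ((N : ℝ) + 1) := by
        field_simp
      rw [h9]
      field_simp
    rw [Metric.tendstoUniformlyOn_iff]
    intro ε hε
    have hB' : 0 < |B| + 1 := by positivity
    have h10 : ∀ᶠ N : ℕ in atTop, K * ((N : ℝ) + 1) ^ (3 / 4 : ℝ) * r / ((N : ℝ) + 1 - r) <
        min 1 (ε / (2 * (|B| + 1))) := hlim.eventually (gt_mem_nhds (by positivity))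
    filter_upwards [h10, eventually_gt_atTop ⌈r⌉₊] with N hN hN2 z hz
    have h4 : r ≤ ⌈r⌉₊ := Nat.le_ceil _
    have h5 : ((⌈r⌉₊ : ℕ) : ℝ) < N := by exact_mod_cast hN2
    have hzr := hr z hz
    obtain ⟨w, hw1, hw2⟩ := hP4 N z (by linarith)
    have hw3 : ‖w‖ < min 1 (ε / (2 * (|B| + 1))) := by
      refine lt_of_le_of_lt (hw2.trans ?_) hN
      have h6 : 0 < (N : ℝ) + 1 - r := by linarith
      gcongr
    have hw4 : ‖w‖ < 1 := hw3.trans_le (min_le_left _ _)
    have hw5 : ‖w‖ < ε / (2 * (|B| + 1)) := hw3.trans_le (min_le_right _ _)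
    rw [hw1, dist_eq_norm]
    have e1 : f z - f z * exp w = -(f z * (exp w - 1)) := by ring
    rw [e1, norm_neg, norm_mul]
    have h7 : ‖exp w - 1‖ ≤ 2 * ‖w‖ := by
      have := Complex.norm_exp_sub_one_le hw4.le
      linarith
    calc ‖f z‖ * ‖exp w - 1‖ ≤ |B| * (2 * ‖w‖) := by
          apply mul_le_mul ((hB z hz).trans (le_abs_self B)) h7 (norm_nonneg _) (abs_nonneg _)
      _ ≤ (|B| + 1) * (2 * ‖w‖) := by gcongr; linarith
      _ < (|B| + 1) * (2 * (ε / (2 * (|B| + 1)))) := by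
          apply mul_lt_mul_of_pos_left _ hB'
          linarith
      _ = ε := by field_simp

theorem ent_shift {f : ℂ → ℂ} (hf : Ent f) (x : ℝ) : Ent (fun z => f (z + x)) := by
  obtain ⟨C, hC, hb⟩ := hf.gro
  refine ⟨hf.diff.comp (differentiable_id.add_const _), ?_, C * (1 + |x|) ^ (3 / 4 : ℝ),
    by positivity, ?_⟩
  · intro z
    have h1 := hf.sym (z + x)
    rw [map_add, conj_ofReal] at h1
    exact h1
  · intro z
    refine (hb _).trans (Real.exp_le_exp.2 ?_)
    rw [mul_assoc, ← Real.mul_rpow (by positivity) (by positivity)]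
    apply mul_le_mul_of_nonneg_left _ hC
    apply Real.rpow_le_rpow (by positivity) _ (by norm_num)
    have h1 : ‖z + (x : ℂ)‖ ≤ ‖z‖ + |x| := by
      refine (norm_add_le _ _).trans ?_
      simp
    nlinarith [norm_nonneg z, abs_nonneg x, mul_nonneg (norm_nonneg z) (abs_nonneg x)]

theorem exists_real_ne {f : ℂ → ℂ} (hf : Differentiable ℂ f) (h : ∃ z, f z ≠ 0) :
    ∃ x : ℝ, f x ≠ 0 := by
  by_contra hcon
  push Not at hcon
  obtain ⟨z, hz⟩ := h
  apply hz
  have h1 : AnalyticOnNhd ℂ f Set.univ := fun w _ => hf.analyticAt w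
  have h2 : ∃ᶠ w in 𝓝[≠] (0 : ℂ), f w = 0 := by
    have h3 : Tendsto (fun n : ℕ => ((1 / ((n : ℝ) + 1) : ℝ) : ℂ)) atTop (𝓝[≠] 0) := by
      apply tendsto_nhdsWithin_of_tendsto_nhds_of_eventually_within
      · have h4 := tendsto_one_div_add_atTop_nhds_zero_nat (𝕜 := ℝ)
        have h5 := (continuous_ofReal.tendsto (0 : ℝ)).comp h4
        rw [ofReal_zero] at h5
        exact h5
      · refine Eventually.of_forall fun n => ?_
        have : (1 / ((n : ℝ) + 1) : ℝ) ≠ 0 := by positivity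
        exact fun hc => this (ofReal_eq_zero.1 hc)
    exact h3.frequently (Frequently.of_forall fun n => hcon _)
  have h3 := h1.eqOn_zero_of_preconnected_of_frequently_eq_zero isPreconnected_univ
    (Set.mem_univ 0) h2
  exact h3 (Set.mem_univ z)

theorem t_had : S_had := by
  intro f hf hne
  obtain ⟨x, hx⟩ := exists_real_ne hf.diff hne
  obtain ⟨P, hP1, hP2, hP3, hP4⟩ := had0 (ent_shift hf x) (by simpa using hx)
  refine ⟨fun N => (P N).comp (X - C x), ?_, ?_, ?_, ?_⟩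
  · intro N hcon
    apply hP1 N
    have hcon' : (P N).comp (X - C x) = 0 := hcon
    have h1 : ((P N).comp (X - C x)).comp (X + C x) = 0 := by rw [hcon']; simp
    rw [comp_assoc] at h1
    simpa using h1
  · intro N z hz
    have h1 : aeval (z - x) (P N) = 0 := by
      rw [aeval_comp] at hz
      simpa using hz
    have h2 := hP2 N _ h1
    simpa using h2
  · intro z hz
    have h1 := hP3 (z - x) (by simpa using hz)
    filter_upwards [h1] with N hN
    rw [aeval_comp]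
    simpa using hN
  · have h1 := hP4.comp (fun z : ℂ => z - x) (by fun_prop)
    have e1 : ((fun z : ℂ => f (z + x)) ∘ fun z : ℂ => z - x) = f := by
      funext z
      simp
    have e2 : (fun (N : ℕ) => (fun z : ℂ => aeval z (P N)) ∘ fun z : ℂ => z - x) =
        fun (N : ℕ) (z : ℂ) => aeval z ((P N).comp (X - C x)) := by
      funext N z
      rw [aeval_comp]
      simp
    rw [e1, e2] at h1
    exact h1

end Pool.Agent.J4H8.JP
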