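import Pool.Agent.H401R2.Rep2

set_option autoImplicit false

/-! # helper8: moments of the kernel of the xi function -/

namespace Pool.Agent.J4H8.JP

open Filter Topology MeasureTheory Set
open Pool.Agent.H401R2 Pool.Agent.Helper242

/-- even moments of the kernel -/
noncomputable def Mo (k : ℕ) : ℝ := ∫ u in Ioi (0 : ℝ), u ^ (2 * k) * Kr u

theorem Kr_pos (u : ℝ) : 0 < Kr u := by
  unfold Kr
  have := RK.Phi_pos (u / 2)
  positivity

theorem Kr_decay : ∃ A : ℝ, 0 < A ∧ ∀ u : ℝ, Kr u ≤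
    A * Real.exp (9 / 2 * |u| - Real.pi * Real.exp (2 * |u|)) := by
  obtain ⟨A, hA, h⟩ := RK.PhiC_bound (Y := 0) le_rfl (by positivity)
  refine ⟨4 * A, by positivity, fun u => ?_⟩
  have h1 := h ((u / 2 : ℝ) : ℂ) (by simp)
  rw [RK.PhiC_ofReal, Complex.norm_real, Real.norm_eq_abs, Complex.ofReal_re, mul_zero,
    Real.cos_zero, mul_one] at h1
  have hab : |u / 2| = |u| / 2 := by rw [abs_div]; norm_num
  rw [hab] at h1
  unfold Kr
  have h2 := (le_abs_self _).trans h1
  have e1 : 9 * (|u| / 2) = 9 / 2 * |u| := by ring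
  have e2 : 4 * (|u| / 2) = 2 * |u| := by ring
  rw [e1, e2] at h2
  linarith

/-- `e^{u^16} Kr u` is dominated by `C e^{-u^2}` -/
theorem Kr_bound16 : ∃ A : ℝ, 0 < A ∧ ∀ u : ℝ, Real.exp (u ^ 16) * Kr u ≤ A * Real.exp (-1 * u ^ 2) := by
  obtain ⟨A, hA, h⟩ := Kr_decay
  -- `t^16 ≤ D + e^{2t}` for `t ≥ 0`
  have hlim : Tendsto (fun t : ℝ => t ^ 16 * Real.exp (-t)) atTop (𝓝 0) :=
    Real.tendsto_pow_mul_exp_neg_atTop_nhds_zero 16
  obtain ⟨T, hT⟩ := eventually_atTop.1 (hlim.eventually (gt_mem_nhds one_pos))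
  set D : ℝ := (|T| + 1) ^ 16 with hD
  have key : ∀ t : ℝ, 0 ≤ t → t ^ 16 ≤ D + Real.exp (2 * t) := by
    intro t ht
    by_cases hTt : T ≤ t
    · have h1 := hT t hTt
      have h2 : t ^ 16 < Real.exp t := by
        have h3 : t ^ 16 * Real.exp (-t) * Real.exp t = t ^ 16 := by
          rw [mul_assoc, ← Real.exp_add]; simp
        rw [← h3]
        calc _ < 1 * Real.exp t := mul_lt_mul_of_pos_right h1 (Real.exp_pos _)
          _ = _ := one_mul _
      have h4 : Real.exp t ≤ Real.exp (2 * t) := Real.exp_le_exp.2 (by linarith)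
      have : 0 ≤ D := by positivity
      linarith
    · push Not at hTt
      have h1 : t ^ 16 ≤ D := by
        rw [hD]
        apply pow_le_pow_left₀ ht
        linarith [le_abs_self T]
      have := Real.exp_pos (2 * t)
      linarith
  refine ⟨A * Real.exp (D + 4), by positivity, fun u => ?_⟩
  have h1 := key |u| (abs_nonneg u)
  have e16 : |u| ^ 16 = u ^ 16 := by
    rw [show (16 : ℕ) = 2 * 8 by norm_num, pow_mul, sq_abs, pow_mul]
  rw [e16] at h1
  have hpi := Real.pi_gt_three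
  have h2 : 1 + 2 * |u| + (2 * |u|) ^ 2 / 2 ≤ Real.exp (2 * |u|) :=
    Real.quadratic_le_exp_of_nonneg (by positivity)
  have h3 := Real.exp_pos (2 * |u|)
  calc Real.exp (u ^ 16) * Kr u ≤ Real.exp (u ^ 16) *
        (A * Real.exp (9 / 2 * |u| - Real.pi * Real.exp (2 * |u|))) := by
        gcongr
        exact h u
    _ = A * Real.exp (u ^ 16 + (9 / 2 * |u| - Real.pi * Real.exp (2 * |u|))) := by
        rw [Real.exp_add]; ring
    _ ≤ A * Real.exp (D + 4 + -1 * u ^ 2) := by
        apply mul_le_mul_of_nonneg_left _ hA.le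
        apply Real.exp_le_exp.2
        have e2 : u ^ 2 = |u| ^ 2 := (sq_abs u).symm
        rw [e2]
        nlinarith [sq_nonneg (|u| - 1), abs_nonneg u, mul_pos (sub_pos.2 hpi) h3]
    _ = A * Real.exp (D + 4) * Real.exp (-1 * u ^ 2) := by
        rw [Real.exp_add]; ring

theorem integrable16 : Integrable (fun u : ℝ => Real.exp (u ^ 16) * Kr u) := by
  obtain ⟨A, hA, h⟩ := Kr_bound16
  have hg : Integrable (fun u : ℝ => A * Real.exp (-1 * u ^ 2)) :=
    (integrable_exp_neg_mul_sq one_pos).const_mul A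
  refine hg.mono' ?_ ?_
  · have : Continuous (fun u : ℝ => Real.exp (u ^ 16) * Kr u) := by
      have := continuous_Kr
      fun_prop
    exact this.aestronglyMeasurable
  · refine ae_of_all _ fun u => ?_
    have : 0 ≤ Real.exp (u ^ 16) * Kr u := by
      have := Kr_pos u
      positivity
    rw [Real.norm_of_nonneg this]
    exact h u

theorem pow_le_exp16 (m : ℕ) : ∃ B : ℝ, 0 < B ∧ ∀ u : ℝ, |u ^ m| ≤ B * Real.exp (u ^ 16) := by
  refine ⟨(m.factorial : ℝ) * Real.exp 1, by positivity, fun u => ?_⟩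
  have h1 : |u ^ m| ≤ m.factorial * Real.exp |u| := by
    have h2 := Real.pow_div_factorial_le_exp |u| (abs_nonneg u) m
    rw [div_le_iff₀ (by positivity)] at h2
    rw [abs_pow]
    linarith
  have h3 : |u| ≤ 1 + u ^ 16 := by
    have e16 : |u| ^ 16 = u ^ 16 := by
      rw [show (16 : ℕ) = 2 * 8 by norm_num, pow_mul, sq_abs, pow_mul]
    by_cases hu : |u| ≤ 1
    · have : 0 ≤ u ^ 16 := by rw [← e16]; positivity
      linarith
    · push Not at hu
      have := le_self_pow₀ hu.le (n := 16) (by norm_num)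
      rw [e16] at this
      linarith
  calc |u ^ m| ≤ m.factorial * Real.exp |u| := h1
    _ ≤ m.factorial * Real.exp (1 + u ^ 16) := by gcongr
    _ = _ := by rw [Real.exp_add]; ring

theorem integrable_pow_Kr (m : ℕ) : Integrable (fun u : ℝ => u ^ m * Kr u) := by
  obtain ⟨B, hB, h⟩ := pow_le_exp16 m
  refine (integrable16.const_mul B).mono' ?_ ?_
  · have : Continuous (fun u : ℝ => u ^ m * Kr u) := by
      have := continuous_Kr
      fun_prop
    exact this.aestronglyMeasurable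
  · refine ae_of_all _ fun u => ?_
    have := Kr_pos u
    rw [norm_mul, Real.norm_eq_abs, Real.norm_of_nonneg this.le, ← mul_assoc]
    gcongr
    exact h u

theorem Mo_pos (k : ℕ) : 0 < Mo k := by
  unfold Mo
  rw [setIntegral_pos_iff_support_of_nonneg_ae]
  · have : Function.support (fun u : ℝ => u ^ (2 * k) * Kr u) ∩ Ioi 0 = Ioi 0 := by
      apply inter_eq_right.2
      intro u hu
      have h1 := Kr_pos u
      have h2 : (0 : ℝ) < u := hu
      have : 0 < u ^ (2 * k) * Kr u := by positivity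
      exact this.ne'
    rw [this]
    simp
  · refine ae_of_all _ fun u => ?_
    have h1 := Kr_pos u
    have : 0 ≤ u ^ (2 * k) := by rw [pow_mul]; positivity
    exact mul_nonneg this h1.le
  · exact (integrable_pow_Kr _).integrableOn

theorem Mo_convex (k : ℕ) : Mo (k + 1) ^ 2 ≤ Mo k * Mo (k + 2) := by
  have hk := Mo_pos k
  have key : ∀ t : ℝ, 0 ≤ t ^ 2 * Mo k - 2 * t * Mo (k + 1) + Mo (k + 2) := by
    intro t
    have h1 : t ^ 2 * Mo k - 2 * t * Mo (k + 1) + Mo (k + 2) =
        ∫ u in Ioi (0 : ℝ), u ^ (2 * k) * (t - u ^ 2) ^ 2 * Kr u := by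
      unfold Mo
      rw [← integral_const_mul, ← integral_const_mul, ← integral_sub, ← integral_add]
      · congr 1
        funext u
        ring
      · exact (((integrable_pow_Kr _).integrableOn).const_mul _).sub
          (((integrable_pow_Kr _).integrableOn).const_mul _)
      · exact (integrable_pow_Kr _).integrableOn
      · exact (((integrable_pow_Kr _).integrableOn).const_mul _)
      · exact (((integrable_pow_Kr _).integrableOn).const_mul _)
    rw [h1]
    apply integral_nonneg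
    intro u
    have h2 := Kr_pos u
    have : 0 ≤ u ^ (2 * k) := by rw [pow_mul]; positivity
    show 0 ≤ u ^ (2 * k) * (t - u ^ 2) ^ 2 * Kr u
    positivity
  have h2 := key (Mo (k + 1) / Mo k)
  have h3 : (Mo (k + 1) / Mo k) ^ 2 * Mo k - 2 * (Mo (k + 1) / Mo k) * Mo (k + 1) + Mo (k + 2) =
      (Mo k * Mo (k + 2) - Mo (k + 1) ^ 2) / Mo k := by
    field_simp
    ring
  rw [h3] at h2
  have h4 : 0 ≤ Mo k * Mo (k + 2) - Mo (k + 1) ^ 2 := by
    by_contra hcon
    push Not at hcon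
    have := div_neg_of_neg_of_pos hcon hk
    linarith
  linarith

/-- ratio of consecutive moments -/
noncomputable def rho (k : ℕ) : ℝ := Mo (k + 1) / Mo k

theorem rho_pos (k : ℕ) : 0 < rho k := div_pos (Mo_pos _) (Mo_pos _)

theorem rho_mono : Monotone rho := by
  apply monotone_nat_of_le_succ
  intro k
  unfold rho
  rw [div_le_div_iff₀ (Mo_pos _) (Mo_pos _)]
  have := Mo_convex k
  nlinarith

theorem Mo_add (k m : ℕ) : Mo k * rho k ^ m ≤ Mo (k + m) := by
  induction m with
  | zero => simp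
  | succ m ih =>
      have h1 : Mo (k + (m + 1)) = rho (k + m) * Mo (k + m) := by
        unfold rho
        rw [Nat.add_assoc]
        have := (Mo_pos (k + m)).ne'
        field_simp
      rw [h1, pow_succ]
      have h2 : rho k ≤ rho (k + m) := rho_mono (Nat.le_add_right k m)
      have h3 := rho_pos k
      have h4 := Mo_pos k
      calc Mo k * (rho k ^ m * rho k) = rho k * (Mo k * rho k ^ m) := by ring
        _ ≤ rho (k + m) * Mo (k + m) := by
          apply mul_le_mul h2 ih (by positivity) (rho_pos _).le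

theorem Mo_upper : ∃ C : ℝ, 0 < C ∧ ∀ k : ℕ, 1 ≤ k → Mo (2 * k) ≤ C * ((k : ℝ) ^ (1 / 4 : ℝ)) ^ k := by
  have hpos : 0 < ∫ u : ℝ, Real.exp (u ^ 16) * Kr u := by
    rw [integral_pos_iff_support_of_nonneg]
    · have : Function.support (fun u : ℝ => Real.exp (u ^ 16) * Kr u) = univ := by
        apply eq_univ_of_forall
        intro u
        have := Kr_pos u
        have : 0 < Real.exp (u ^ 16) * Kr u := by positivity
        exact this.ne'
      rw [this]
      simp
    · intro u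
      have := Kr_pos u
      show 0 ≤ Real.exp (u ^ 16) * Kr u
      positivity
    · exact integrable16
  refine ⟨∫ u : ℝ, Real.exp (u ^ 16) * Kr u, hpos, fun k hk => ?_⟩
  have hk0 : (0 : ℝ) < k := by exact_mod_cast hk
  have key : ∀ u : ℝ, u ^ (2 * (2 * k)) ≤ ((k : ℝ) ^ (1 / 4 : ℝ)) ^ k * Real.exp (u ^ 16) := by
    intro u
    have e16 : |u| ^ 16 = u ^ 16 := by
      rw [show (16 : ℕ) = 2 * 8 by norm_num, pow_mul, sq_abs, pow_mul]
    have e4 : u ^ (2 * (2 * k)) = (|u| ^ 4) ^ k := by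
      rw [← pow_mul, show 2 * (2 * k) = 4 * k by ring, ← (show Even (4 * k) from
        ⟨2 * k, by ring⟩).pow_abs u]
    have h1 : |u| ^ 4 ≤ (k : ℝ) ^ (1 / 4 : ℝ) * Real.exp (u ^ 16 / k) := by
      have h2 : |u| ^ 16 / k ≤ Real.exp (|u| ^ 16 / k) := by
        have := Real.add_one_le_exp (|u| ^ 16 / k)
        linarith
      have h3 : |u| ^ 4 = (|u| ^ 16) ^ (1 / 4 : ℝ) := by
        rw [show |u| ^ 16 = (|u| ^ 4) ^ (4 : ℕ) by ring, ← Real.rpow_natCast (|u| ^ 4) 4,
          ← Real.rpow_mul (by positivity)]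
        norm_num
      have h4 : |u| ^ 16 = k * (|u| ^ 16 / k) := by field_simp
      rw [h3, h4, Real.mul_rpow hk0.le (by positivity)]
      apply mul_le_mul_of_nonneg_left _ (by positivity)
      have h5 : (|u| ^ 16 / k) ^ (1 / 4 : ℝ) ≤ (Real.exp (|u| ^ 16 / k)) ^ (1 / 4 : ℝ) :=
        Real.rpow_le_rpow (by positivity) h2 (by norm_num)
      refine h5.trans ?_
      rw [← Real.exp_mul, e16]
      apply Real.exp_le_exp.2
      have : 0 ≤ u ^ 16 / k := by rw [← e16]; positivity
      linarith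
    rw [e4]
    calc (|u| ^ 4) ^ k ≤ ((k : ℝ) ^ (1 / 4 : ℝ) * Real.exp (u ^ 16 / k)) ^ k :=
          pow_le_pow_left₀ (by positivity) h1 k
      _ = ((k : ℝ) ^ (1 / 4 : ℝ)) ^ k * Real.exp (u ^ 16) := by
          rw [mul_pow, ← Real.exp_nat_mul]
          congr 2
          field_simp
  calc Mo (2 * k) ≤ ∫ u in Ioi (0 : ℝ), ((k : ℝ) ^ (1 / 4 : ℝ)) ^ k * (Real.exp (u ^ 16) * Kr u) := by
        unfold Mo
        apply integral_mono
        · exact (integrable_pow_Kr _).integrableOn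
        · exact (integrable16.const_mul _).integrableOn
        · intro u
          have h1 := key u
          have h2 := Kr_pos u
          show u ^ (2 * (2 * k)) * Kr u ≤ ((k : ℝ) ^ (1 / 4 : ℝ)) ^ k * (Real.exp (u ^ 16) * Kr u)
          have h3 := mul_le_mul_of_nonneg_right h1 h2.le
          linarith
    _ ≤ ∫ u : ℝ, ((k : ℝ) ^ (1 / 4 : ℝ)) ^ k * (Real.exp (u ^ 16) * Kr u) := by
        apply setIntegral_le_integral (integrable16.const_mul _)
        refine ae_of_all _ fun u => ?_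
        have h2 := Kr_pos u
        show 0 ≤ ((k : ℝ) ^ (1 / 4 : ℝ)) ^ k * (Real.exp (u ^ 16) * Kr u)
        positivity
    _ = _ := by rw [integral_const_mul, mul_comm]

theorem rho_le : ∃ D : ℝ, 0 < D ∧ ∀ k : ℕ, 1 ≤ k → rho k ≤ D * (k : ℝ) ^ (1 / 4 : ℝ) := by
  obtain ⟨C, hC, h⟩ := Mo_upper
  have h0 := Mo_pos 0
  have hr0 := rho_pos 0
  refine ⟨max 1 (C / Mo 0) / rho 0, by positivity, fun k hk => ?_⟩
  by_contra hcon
  push Not at hcon
  have hk0 : (0 : ℝ) < k := by exact_mod_cast hk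
  have h1 := Mo_add k k
  rw [← two_mul] at h1
  have h2 := h k hk
  have h3 := Mo_add 0 k
  rw [zero_add] at h3
  have h4 : (max 1 (C / Mo 0) / rho 0 * (k : ℝ) ^ (1 / 4 : ℝ)) ^ k < rho k ^ k :=
    pow_lt_pow_left₀ hcon (by positivity) (by omega)
  rw [mul_pow, div_pow] at h4
  have h5 : max 1 (C / Mo 0) ≤ max 1 (C / Mo 0) ^ k := le_self_pow₀ (le_max_left _ _) (by omega)
  have h6 : C ≤ max 1 (C / Mo 0) ^ k * Mo 0 := by
    have h7 : C / Mo 0 ≤ max 1 (C / Mo 0) ^ k := (le_max_right _ _).trans h5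
    rwa [div_le_iff₀ h0] at h7
  have h8 : 0 < rho 0 ^ k := by positivity
  have hkk : 0 < ((k : ℝ) ^ (1 / 4 : ℝ)) ^ k := by positivity
  have h9 : C * ((k : ℝ) ^ (1 / 4 : ℝ)) ^ k < Mo k * rho k ^ k := by
    calc C * ((k : ℝ) ^ (1 / 4 : ℝ)) ^ k ≤
          (max 1 (C / Mo 0) ^ k * Mo 0) * ((k : ℝ) ^ (1 / 4 : ℝ)) ^ k := by gcongr
      _ = (Mo 0 * rho 0 ^ k) * (max 1 (C / Mo 0) ^ k / rho 0 ^ k * ((k : ℝ) ^ (1 / 4 : ℝ)) ^ k) := by
          field_simp
      _ < (Mo 0 * rho 0 ^ k) * rho k ^ k := by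
          apply mul_lt_mul_of_pos_left h4 (by positivity)
      _ ≤ Mo k * rho k ^ k := by
          have := rho_pos k
          gcongr
  linarith

end Pool.Agent.J4H8.JP
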