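import Pool.Agent.J4H1.JP.Stm

set_option autoImplicit false

/-! # helper8: `S_der` -/

namespace Pool.Agent.J4H8.JP

open Complex Filter Topology Metric
open scoped ComplexConjugate
open Pool.Agent.J4H1.JP

theorem rpow_two_mul_le {C : ℝ} (hC : 0 ≤ C) {t : ℝ} (ht : 0 ≤ t) :
    C * (1 + (t + 1)) ^ (3 / 4 : ℝ) ≤ (2 * C) * (1 + t) ^ (3 / 4 : ℝ) := by
  have h1 : (1 + (t + 1)) ^ (3 / 4 : ℝ) ≤ (2 * (1 + t)) ^ (3 / 4 : ℝ) :=
    Real.rpow_le_rpow (by positivity) (by linarith) (by norm_num)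
  rw [Real.mul_rpow (by norm_num) (by positivity)] at h1
  have h2 : (2 : ℝ) ^ (3 / 4 : ℝ) ≤ 2 := by
    calc (2 : ℝ) ^ (3 / 4 : ℝ) ≤ (2 : ℝ) ^ (1 : ℝ) :=
          Real.rpow_le_rpow_of_exponent_le (by norm_num) (by norm_num)
      _ = 2 := Real.rpow_one 2
  have h3 : 0 ≤ (1 + t) ^ (3 / 4 : ℝ) := by positivity
  nlinarith [mul_le_mul_of_nonneg_right h2 h3]

theorem t_der : S_der := by
  intro f hf
  obtain ⟨C, hC, hb⟩ := hf.gro
  refine ⟨?_, ?_, 2 * C, by positivity, ?_⟩
  · intro z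
    exact (hf.diff.deriv) z
  · intro z
    have h1 : (conj ∘ f ∘ conj) = f := by
      funext w
      simp [Function.comp, hf.sym w]
    have h2 : deriv (conj ∘ f ∘ conj) = conj ∘ deriv f ∘ conj := deriv_conj_conj
    rw [h1] at h2
    have h3 := congrFun h2 z
    simp only [Function.comp] at h3
    rw [h3]
    simp
  · intro z
    have h := Complex.norm_deriv_le_of_forall_mem_sphere_norm_le (c := z) (R := 1) (f := f)
      (C := Real.exp ((2 * C) * (1 + ‖z‖) ^ (3 / 4 : ℝ))) one_pos hf.diff.diffContOnCl (by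
        intro w hw
        refine (hb w).trans (Real.exp_le_exp.2 ?_)
        have h1 : ‖w‖ ≤ ‖z‖ + 1 := by
          have : ‖w - z‖ = 1 := by simpa [dist_eq_norm] using hw
          calc ‖w‖ = ‖z + (w - z)‖ := by ring_nf
            _ ≤ ‖z‖ + ‖w - z‖ := norm_add_le _ _
            _ = ‖z‖ + 1 := by rw [this]
        refine le_trans ?_ (rpow_two_mul_le hC (norm_nonneg z))
        gcongr)
    simpa using h

theorem ent_iterate (n : ℕ) {f : ℂ → ℂ} (hf : Ent f) : Ent (iteratedDeriv n f) := by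
  induction n with
  | zero => simpa using hf
  | succ n ih =>
      rw [iteratedDeriv_succ]
      exact t_der _ ih

end Pool.Agent.J4H8.JP
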