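import Pool.Agent.J4H8.JP.Had

set_option autoImplicit false

/-! # helper8: `S_gl` (Gauss-Lucas) and `S_disc` (Jensen's discs) -/

namespace Pool.Agent.J4H8.JP

open Complex Filter Topology Metric Polynomial
open scoped ComplexConjugate
open Pool.Agent.J4H1.JP

theorem roots_sum (P : ℝ[X]) {z : ℂ} (hz : aeval z P ≠ 0) :
    aeval z (derivative P) / aeval z P =
      ((P.map (algebraMap ℝ ℂ)).roots.map fun a => 1 / (z - a)).sum := by
  have h1 : (P.map (algebraMap ℝ ℂ)).Splits := IsAlgClosed.splits _
  have h2 := h1.eval_derivative_div_eval_of_ne_zero (x := z) (by rwa [eval_map_algebraMap])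
  rw [derivative_map, eval_map_algebraMap, eval_map_algebraMap] at h2
  exact h2

theorem tendsto_logDeriv {f : ℂ → ℂ} {P : ℕ → ℝ[X]}
    (hP : TendstoLocallyUniformly (fun (N : ℕ) (z : ℂ) => aeval z (P N)) f atTop) {z : ℂ}
    (hz : f z ≠ 0) :
    Tendsto (fun N => aeval z (derivative (P N)) / aeval z (P N)) atTop (𝓝 (deriv f z / f z)) := by
  have h0 := tendstoLocallyUniformlyOn_univ.2 hP
  have h1 := h0.deriv (Eventually.of_forall fun N => by
    exact (Polynomial.differentiable_aeval (P N)).differentiableOn) isOpen_univ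
  have h2 := h1.tendsto_at (Set.mem_univ z)
  have h3 := h0.tendsto_at (Set.mem_univ z)
  have h4 := h2.div h3 hz
  refine h4.congr fun N => ?_
  simp only [Function.comp, Pi.div_apply]
  rw [Polynomial.deriv_aeval]

theorem exists_zero {f : ℂ → ℂ} (hR : RApp f) (hd : ∃ z, deriv f z ≠ 0) : ∃ a, f a = 0 := by
  by_contra hcon
  push Not at hcon
  obtain ⟨P, hP1, hP2, hP3, hP4⟩ := hR
  have h1 : ∀ N, ∀ z : ℂ, aeval z (P N) = aeval (0 : ℂ) (P N) := by
    intro N z
    by_cases hdeg : (P N).degree = 0
    · rw [eq_C_of_degree_eq_zero hdeg]; simp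
    · obtain ⟨w, hw⟩ := IsAlgClosed.exists_aeval_eq_zero ℂ (P N) hdeg
      exact absurd (hP2 N w hw) (hcon w)
  have h2 : ∀ z, f z = f 0 := by
    intro z
    have h0 := tendstoLocallyUniformlyOn_univ.2 hP4
    have h3 := h0.tendsto_at (Set.mem_univ z)
    have h4 := h0.tendsto_at (Set.mem_univ 0)
    refine tendsto_nhds_unique (h3.congr fun N => ?_) h4
    exact h1 N z
  obtain ⟨z, hz⟩ := hd
  apply hz
  have h3 : f = fun _ => f 0 := by funext w; exact h2 w
  rw [h3]; simp

/-- common mechanism -/
theorem contrib {f : ℂ → ℂ} (hR : RApp f) {z : ℂ} (hz : f z ≠ 0) {l g : ℂ → ℝ} (hl : Continuous l)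
    (hsum : ∀ P : ℝ[X], aeval z P ≠ 0 → l (aeval z (derivative P) / aeval z P) =
      ((P.map (algebraMap ℝ ℂ)).roots.map g).sum)
    (hg : ∀ a, f a = 0 → 0 ≤ g a) {a : ℂ} (ha : f a = 0) :
    g a ≤ l (deriv f z / f z) := by
  obtain ⟨P, hP1, hP2, hP3, hP4⟩ := hR
  have h1 := (hl.tendsto _).comp (tendsto_logDeriv hP4 hz)
  apply ge_of_tendsto h1
  filter_upwards [hP3 a ha] with N hN
  have hzN : aeval z (P N) ≠ 0 := fun h => hz (hP2 N z h)
  simp only [Function.comp]
  rw [hsum (P N) hzN]
  have hmem : a ∈ ((P N).map (algebraMap ℝ ℂ)).roots := by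
    rw [mem_roots']
    refine ⟨?_, ?_⟩
    · rw [Polynomial.map_ne_zero_iff (algebraMap ℝ ℂ).injective]; exact hP1 N
    · rw [IsRoot.def, eval_map_algebraMap]; exact hN
  apply Multiset.single_le_sum
  · intro x hx
    obtain ⟨b, hb, rfl⟩ := Multiset.mem_map.1 hx
    exact hg b (hP2 N b (mem_roots_aeval hb))
  · exact Multiset.mem_map_of_mem g hmem

theorem not_const {f : ℂ → ℂ} (hd : ∃ z, deriv f z ≠ 0) : ∃ z, f z ≠ 0 := by
  by_contra hcon
  push Not at hcon
  obtain ⟨z, hz⟩ := hd
  apply hz
  have h3 : f = fun _ => (0 : ℂ) := by funext w; exact hcon w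
  rw [h3]; simp

theorem t_gl : S_gl := by
  intro f hf hd K hK hKc hKz z hz
  by_contra hzK
  have hR := t_had f hf (not_const hd)
  have hfz : f z ≠ 0 := fun h => hzK (hKz z h)
  obtain ⟨a, ha⟩ := exists_zero hR hd
  -- separation
  obtain ⟨l, u, hl1, hl2⟩ := geometric_hahn_banach_closed_point hK hKc hzK
  -- l a < u < l z
  set ω : ℂ := ⟨l 1, l I⟩ with hω
  have hlω : ∀ w : ℂ, l w = (conj ω * w).re := by
    intro w
    have h1 : l w = w.re * l 1 + w.im * l I := by
      have e : w = w.re • (1 : ℂ) + w.im • I := by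
        apply Complex.ext <;> simp
      conv_lhs => rw [e]
      rw [map_add, map_smul, map_smul, smul_eq_mul, smul_eq_mul]
    rw [h1, hω]
    simp [mul_re]
    ring
  have hterm : ∀ b : ℂ, f b = 0 → 0 < (ω * (1 / (z - b))).re := by
    intro b hb
    have h1 := hl1 b (hKz b hb)
    have h2 : 0 < l (z - b) := by rw [map_sub]; linarith
    rw [hlω] at h2
    have hne : z - b ≠ 0 := by
      intro hc
      rw [hc] at h2; simp at h2
    have h3 : ω * (1 / (z - b)) = ((1 / normSq (z - b) : ℝ) : ℂ) * (ω * conj (z - b)) := by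
      rw [one_div, Complex.inv_def]
      push_cast
      ring
    rw [h3, re_ofReal_mul]
    apply mul_pos
    · have := normSq_pos.2 hne
      positivity
    · have : (ω * conj (z - b)).re = (conj ω * (z - b)).re := by
        simp [mul_re]
        ring
      rw [this]; exact h2
  have h5 := contrib hR hfz (l := fun w => (ω * w).re) (g := fun b => (ω * (1 / (z - b))).re)
    (by fun_prop) (by
      intro P hP
      rw [roots_sum P hP]
      rw [← Multiset.sum_map_mul_left]
      exact Complex.reCLM.toLinearMap.toAddMonoidHom.map_multiset_sum _ |>.trans (by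
        rw [Multiset.map_map]; rfl))
    (fun b hb => (hterm b hb).le) ha
  have h6 := hterm a ha
  rw [hz] at h5
  simp at h5
  simp at h6
  linarith

theorem t_disc : S_disc := by
  intro f hf hd z hzim hz
  by_contra hcon
  push Not at hcon
  have hR := t_had f hf (not_const hd)
  have hfz : f z ≠ 0 := by
    intro h
    have h1 := hcon z h hzim
    have h2 : z - (z.re : ℂ) = z.im * I := by
      apply Complex.ext <;> simp
    rw [h2] at h1
    simp at h1
  obtain ⟨a, ha⟩ := exists_zero hR hd
  have hterm : ∀ b : ℂ, f b = 0 → 0 < -z.im * ((1 / (z - b)).im + (1 / (z - conj b)).im) := by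
    intro b hb
    have hb1 : z - b ≠ 0 := by
      intro hc
      apply hfz
      rw [sub_eq_zero.1 hc]; exact hb
    have hb2 : z - conj b ≠ 0 := by
      intro hc
      apply hfz
      rw [sub_eq_zero.1 hc, hf.sym, hb, map_zero]
    have h1 : b.im ^ 2 < (z.re - b.re) ^ 2 + z.im ^ 2 := by
      by_cases hbim : b.im = 0
      · rw [hbim]
        have : 0 < z.im ^ 2 := by positivity
        nlinarith [sq_nonneg (z.re - b.re)]
      · have h2 := hcon b hb hbim
        have h3 : |b.im| ^ 2 < ‖z - (b.re : ℂ)‖ ^ 2 := by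
          exact pow_lt_pow_left₀ h2 (abs_nonneg _) two_ne_zero
        rw [sq_abs, Complex.sq_norm, normSq_apply] at h3
        simp at h3
        nlinarith
    have p1 : 0 < normSq (z - b) := normSq_pos.2 hb1
    have p2 : 0 < normSq (z - conj b) := normSq_pos.2 hb2
    rw [one_div, one_div, inv_im, inv_im]
    rw [normSq_apply] at p1 p2 ⊢
    rw [normSq_apply]
    simp only [sub_re, sub_im, conj_re, conj_im] at p1 p2 ⊢
    have key : -z.im * (-(z.im - b.im) / ((z.re - b.re) * (z.re - b.re) + (z.im - b.im) * (z.im - b.im)) +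
        -(z.im - -b.im) / ((z.re - b.re) * (z.re - b.re) + (z.im - -b.im) * (z.im - -b.im))) =
        2 * z.im ^ 2 * ((z.re - b.re) ^ 2 + z.im ^ 2 - b.im ^ 2) /
        (((z.re - b.re) * (z.re - b.re) + (z.im - b.im) * (z.im - b.im)) *
          ((z.re - b.re) * (z.re - b.re) + (z.im - -b.im) * (z.im - -b.im))) := by
      rw [eq_div_iff (mul_pos p1 p2).ne', mul_assoc, add_mul]
      have q1 := p1.ne'
      have q2 := p2.ne'
      generalize hD1 : (z.re - b.re) * (z.re - b.re) + (z.im - b.im) * (z.im - b.im) = D1 at *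
      generalize hD2 : (z.re - b.re) * (z.re - b.re) + (z.im - -b.im) * (z.im - -b.im) = D2 at *
      have r1 : -(z.im - b.im) / D1 * (D1 * D2) = -(z.im - b.im) * D2 := by field_simp
      have r2 : -(z.im - -b.im) / D2 * (D1 * D2) = -(z.im - -b.im) * D1 := by field_simp
      rw [r1, r2, ← hD1, ← hD2]
      ring
    rw [key]
    have : 0 < z.im ^ 2 := by positivity
    apply div_pos
    · apply mul_pos (by linarith)
      linarith
    · exact mul_pos p1 p2
  have h5 := contrib hR hfz (l := fun w => -z.im * (2 * w.im))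
    (g := fun b => -z.im * ((1 / (z - b)).im + (1 / (z - conj b)).im))
    (by fun_prop) (by
      intro P hP
      have e1 : (aeval z (derivative P) / aeval z P).im =
          ((P.map (algebraMap ℝ ℂ)).roots.map fun a => (1 / (z - a)).im).sum := by
        rw [roots_sum P hP]
        exact Complex.imCLM.toLinearMap.toAddMonoidHom.map_multiset_sum _ |>.trans (by
          rw [Multiset.map_map]; rfl)
      have e2 : (aeval z (derivative P) / aeval z P).im =
          ((P.map (algebraMap ℝ ℂ)).roots.map fun a => (1 / (z - conj a)).im).sum := by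
        have hP' : aeval (conj z) P ≠ 0 := by
          rw [aeval_conj]
          exact (_root_.map_ne_zero _).2 hP
        have h6 : (aeval z (derivative P) / aeval z P) =
            conj (aeval (conj z) (derivative P) / aeval (conj z) P) := by
          rw [aeval_conj, aeval_conj, map_div₀, conj_conj, conj_conj]
        rw [h6, roots_sum P hP', conj_im]
        have h7 : (((P.map (algebraMap ℝ ℂ)).roots.map fun a => 1 / (conj z - a)).sum).im =
          ((P.map (algebraMap ℝ ℂ)).roots.map fun a => (1 / (conj z - a)).im).sum := by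
          exact Complex.imCLM.toLinearMap.toAddMonoidHom.map_multiset_sum _ |>.trans (by
            rw [Multiset.map_map]; rfl)
        rw [h7, ← Multiset.sum_map_neg]
        congr 1
        apply Multiset.map_congr rfl
        intro a _
        have h8 : conj z - a = conj (z - conj a) := by simp
        rw [h8, one_div, one_div, ← map_inv₀, conj_im]
        ring
      rw [Multiset.sum_map_mul_left, Multiset.sum_map_add, ← e1, ← e2]
      ring)
    (fun b hb => (hterm b hb).le) ha
  have h6 := hterm a ha
  rw [hz] at h5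
  simp only [zero_div, zero_im, mul_zero] at h5
  linarith

end Pool.Agent.J4H8.JP
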